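import Mathlib

/-! The abstract forcing argument: a family of large closed sets of a compact space gives a
maximal topologically invariant sigma-ideal with Borel base. -/

namespace HCube

open Set

section

variable {X : Type*} [TopologicalSpace X]

/-- closed under subsets and countable unions -/
def IsSigmaIdeal (I : Set (Set X)) : Prop :=
  ∅ ∈ I ∧ (∀ A ∈ I, ∀ B ⊆ A, B ∈ I) ∧ ∀ f : ℕ → Set X, (∀ n, f n ∈ I) → (⋃ n, f n) ∈ I

/-- invariant under all homeomorphisms -/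
def IsTopInvariant (I : Set (Set X)) : Prop := ∀ (h : X ≃ₜ X), ∀ A ∈ I, h '' A ∈ I

/-- every member is contained in a Borel member -/
def HasBorelBase (I : Set (Set X)) : Prop :=
  ∀ A ∈ I, ∃ B ∈ I, A ⊆ B ∧ @MeasurableSet X (borel X) B

/-- non-trivial -/
def IsNontrivial (I : Set (Set X)) : Prop := Set.univ ∉ I ∧ I ≠ {∅}

/-- maximal among the non-trivial topologically invariant sigma-ideals with Borel base -/
def IsMaximalInvariant (I : Set (Set X)) : Prop :=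
  IsSigmaIdeal I ∧ IsTopInvariant I ∧ HasBorelBase I ∧ IsNontrivial I ∧
    ∀ I' : Set (Set X), IsSigmaIdeal I' → IsTopInvariant I' → HasBorelBase I' →
      IsNontrivial I' → I ⊆ I' → I' = I

end

namespace AbstractMax

variable {X : Type*} {𝓚 : Set (Set X)}

/-- decreasing sequences of members of `𝓚` shrinking to a point -/
structure Sq (𝓚 : Set (Set X)) where
  /-- the sequence -/
  s : ℕ → Set X
  mem : ∀ n, s n ∈ 𝓚
  anti : ∀ n, s (n + 1) ⊆ s n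
  /-- the point -/
  pt : X
  ipt : (⋂ n, s n) = {pt}

theorem Sq.antitone (y : Sq 𝓚) : Antitone y.s := antitone_nat_of_succ_le y.anti

theorem Sq.pt_mem (y : Sq 𝓚) (n : ℕ) : y.pt ∈ y.s n := by
  have h : y.pt ∈ ⋂ n, y.s n := by rw [y.ipt]; exact mem_singleton _
  exact mem_iInter.1 h n

theorem Sq.ext' {y z : Sq 𝓚} (h : ∀ n, y.s n = z.s n) : y = z := by
  obtain ⟨s, m, a, p, i⟩ := y
  obtain ⟨s', m', a', p', i'⟩ := z
  have hs : s = s' := funext h
  subst hs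
  have hp : p = p' := by
    rw [i] at i'
    exact singleton_injective i'
  subst hp
  rfl

instance : TopologicalSpace (Sq 𝓚) where
  IsOpen U := ∀ y ∈ U, ∃ n, ∀ z : Sq 𝓚, (∀ i ≤ n, z.s i = y.s i) → z ∈ U
  isOpen_univ := fun _ _ => ⟨0, fun _ _ => mem_univ _⟩
  isOpen_inter := by
    intro U V hU hV y hy
    obtain ⟨n, hn⟩ := hU y hy.1
    obtain ⟨m, hm⟩ := hV y hy.2
    exact ⟨max n m, fun z hz => ⟨hn z fun i hi => hz i (hi.trans (le_max_left _ _)),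
      hm z fun i hi => hz i (hi.trans (le_max_right _ _))⟩⟩
  isOpen_sUnion := by
    intro S hS y hy
    obtain ⟨U, hU, hyU⟩ := hy
    obtain ⟨n, hn⟩ := hS U hU y hyU
    exact ⟨n, fun z hz => ⟨U, hU, hn z hz⟩⟩

theorem isOpen_iff {U : Set (Sq 𝓚)} : IsOpen U ↔
    ∀ y ∈ U, ∃ n, ∀ z : Sq 𝓚, (∀ i ≤ n, z.s i = y.s i) → z ∈ U := Iff.rfl

/-- cylinders -/
def cyl (y : Sq 𝓚) (n : ℕ) : Set (Sq 𝓚) := {z | ∀ i ≤ n, z.s i = y.s i}

theorem mem_cyl_self (y : Sq 𝓚) (n : ℕ) : y ∈ cyl y n := fun _ _ => rfl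

theorem isOpen_cyl (y : Sq 𝓚) (n : ℕ) : IsOpen (cyl y n) := by
  rw [isOpen_iff]
  intro z hz
  exact ⟨n, fun w hw i hi => (hw i hi).trans (hz i hi)⟩

/-- the sets `Y_K` -/
def below (K : Set X) : Set (Sq 𝓚) := {z | z.s 0 ⊆ K}

theorem isOpen_below (K : Set X) : IsOpen (below (𝓚 := 𝓚) K) := by
  rw [isOpen_iff]
  intro z hz
  refine ⟨0, fun w hw => ?_⟩
  change w.s 0 ⊆ K
  rw [hw 0 le_rfl]
  exact hz

theorem below_mono {K L : Set X} (h : K ⊆ L) : below (𝓚 := 𝓚) K ⊆ below L :=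
  fun _ hz => Subset.trans hz h

/-- replace the tail -/
def glue (y : Sq 𝓚) (n : ℕ) (z : Sq 𝓚) (h : z.s 0 ⊆ y.s n) : Sq 𝓚 where
  s := fun i => if i ≤ n then y.s i else z.s (i - (n + 1))
  mem := by
    intro i
    split_ifs
    · exact y.mem i
    · exact z.mem _
  anti := by
    intro i
    by_cases h1 : i + 1 ≤ n
    · rw [if_pos h1, if_pos (by omega)]
      exact y.anti i
    · rw [if_neg h1]
      by_cases h2 : i ≤ n
      · rw [if_pos h2]
        have e : i = n := by omega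
        subst e
        rw [Nat.sub_self]
        exact h
      · rw [if_neg h2]
        have e : i + 1 - (n + 1) = (i - (n + 1)) + 1 := by omega
        rw [e]
        exact z.anti _
  pt := z.pt
  ipt := by
    rw [← z.ipt]
    apply Subset.antisymm
    · intro x hx
      rw [mem_iInter] at hx ⊢
      intro j
      have := hx (j + (n + 1))
      rw [if_neg (by omega), Nat.add_sub_cancel] at this
      exact this
    · intro x hx
      rw [mem_iInter] at hx ⊢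
      intro i
      split_ifs with h1
      · exact y.antitone h1 (h (hx 0))
      · exact hx _

theorem glue_le {y : Sq 𝓚} {n : ℕ} {z : Sq 𝓚} (h : z.s 0 ⊆ y.s n) {i : ℕ} (hi : i ≤ n) :
    (glue y n z h).s i = y.s i := if_pos hi

theorem glue_gt {y : Sq 𝓚} {n : ℕ} {z : Sq 𝓚} (h : z.s 0 ⊆ y.s n) (i : ℕ) :
    (glue y n z h).s (n + 1 + i) = z.s i := by
  change (if n + 1 + i ≤ n then y.s (n + 1 + i) else z.s (n + 1 + i - (n + 1))) = z.s i
  rw [if_neg (by omega), Nat.add_sub_cancel_left]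

/-- drop the first `n + 1` terms -/
def drop (w : Sq 𝓚) (n : ℕ) : Sq 𝓚 where
  s := fun i => w.s (n + 1 + i)
  mem := fun _ => w.mem _
  anti := fun _ => w.anti _
  pt := w.pt
  ipt := by
    rw [← w.ipt]
    apply Subset.antisymm
    · intro x hx
      rw [mem_iInter] at hx ⊢
      intro j
      exact w.antitone (by omega : j ≤ n + 1 + j) (hx j)
    · intro x hx
      rw [mem_iInter] at hx ⊢
      intro i
      exact hx _

open Classical in
/-- the prefix map -/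
noncomputable def phi (y0 : Sq 𝓚) (n : ℕ) (y : Sq 𝓚) : Sq 𝓚 :=
  if h : y.s 0 ⊆ y0.s n then glue y0 n y h else y

theorem phi_pos {y0 : Sq 𝓚} {n : ℕ} {y : Sq 𝓚} (h : y.s 0 ⊆ y0.s n) :
    phi y0 n y = glue y0 n y h := dif_pos h

theorem phi_neg {y0 : Sq 𝓚} {n : ℕ} {y : Sq 𝓚} (h : ¬ y.s 0 ⊆ y0.s n) :
    phi y0 n y = y := dif_neg h

theorem phi_pt (y0 : Sq 𝓚) (n : ℕ) (y : Sq 𝓚) : (phi y0 n y).pt = y.pt := by
  by_cases h : y.s 0 ⊆ y0.s n
  · rw [phi_pos h]; rfl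
  · rw [phi_neg h]

theorem continuous_phi (y0 : Sq 𝓚) (n : ℕ) : Continuous (phi y0 n) := by
  refine ⟨fun U hU => ?_⟩
  rw [isOpen_iff] at hU ⊢
  intro y hy
  obtain ⟨m, hm⟩ := hU _ hy
  refine ⟨m, fun z hz => ?_⟩
  have h0 : z.s 0 = y.s 0 := hz 0 (Nat.zero_le _)
  refine hm _ fun i hi => ?_
  by_cases h : y.s 0 ⊆ y0.s n
  · have h' : z.s 0 ⊆ y0.s n := by rw [h0]; exact h
    rw [phi_pos h, phi_pos h']
    rcases le_or_gt i n with h1 | h1
    · rw [glue_le _ h1, glue_le _ h1]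
    · obtain ⟨k, rfl⟩ : ∃ k, i = n + 1 + k := ⟨i - (n + 1), by omega⟩
      rw [glue_gt, glue_gt]
      exact hz k (by omega)
  · have h' : ¬ z.s 0 ⊆ y0.s n := by rw [h0]; exact h
    rw [phi_neg h, phi_neg h']
    exact hz i hi

theorem isOpenMap_phi (y0 : Sq 𝓚) (n : ℕ) : IsOpenMap (phi y0 n) := by
  intro U hU
  rw [isOpen_iff] at hU ⊢
  rintro _ ⟨y, hy, rfl⟩
  obtain ⟨m, hm⟩ := hU y hy
  by_cases h : y.s 0 ⊆ y0.s n
  · refine ⟨n + 1 + m, fun w hw => ?_⟩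
    have hz : ∀ i ≤ m, (drop w n).s i = y.s i := by
      intro i hi
      have := hw (n + 1 + i) (by omega)
      rw [phi_pos h, glue_gt] at this
      exact this
    have h' : (drop w n).s 0 ⊆ y0.s n := by rw [hz 0 (Nat.zero_le _)]; exact h
    refine ⟨drop w n, hm _ hz, ?_⟩
    rw [phi_pos h']
    refine Sq.ext' fun i => ?_
    rcases le_or_gt i n with h1 | h1
    · rw [glue_le _ h1]
      have := hw i (by omega)
      rw [phi_pos h, glue_le _ h1] at this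
      exact this.symm
    · obtain ⟨k, rfl⟩ : ∃ k, i = n + 1 + k := ⟨i - (n + 1), by omega⟩
      rw [glue_gt]
      rfl
  · refine ⟨m, fun w hw => ?_⟩
    rw [phi_neg h] at hw
    have h' : ¬ w.s 0 ⊆ y0.s n := by rw [hw 0 (Nat.zero_le _)]; exact h
    exact ⟨w, hm w hw, phi_neg h'⟩

/-- the transfer of meagerness from a cylinder -/
theorem meagre_transfer {y0 : Sq 𝓚} {n : ℕ} {B : Set X}
    (h : IsMeagre (cyl y0 n \ {y | y.pt ∈ B})) :
    IsMeagre (below (𝓚 := 𝓚) (y0.s n) \ {y | y.pt ∈ B}) := by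
  refine IsMeagre.mono ?_ (h.preimage_of_isOpenMap (continuous_phi y0 n) (isOpenMap_phi y0 n))
  rintro y ⟨hy, hyB⟩
  have hy' : y.s 0 ⊆ y0.s n := hy
  refine ⟨fun i hi => ?_, fun h1 => hyB ?_⟩
  · rw [phi_pos hy', glue_le _ hi]
  · change (phi y0 n y).pt ∈ B at h1
    rwa [phi_pt] at h1

section top

variable [TopologicalSpace X] [CompactSpace X]

theorem continuous_pt (hcl : ∀ K ∈ 𝓚, IsClosed K) : Continuous fun y : Sq 𝓚 => y.pt := by
  refine ⟨fun O hO => ?_⟩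
  rw [isOpen_iff]
  intro y hy
  obtain ⟨n, hn⟩ := exists_subset_nhds_of_isCompact' (V := y.s) (U := O)
    (y.antitone.directed_ge) (fun i => (hcl _ (y.mem i)).isCompact) (fun i => hcl _ (y.mem i))
    (by
      intro x hx
      rw [y.ipt, mem_singleton_iff] at hx
      subst hx
      exact hO.mem_nhds hy)
  refine ⟨n, fun z hz => hn ?_⟩
  rw [← hz n le_rfl]
  exact z.pt_mem n

omit [CompactSpace X]

/-- the action of homeomorphisms -/
def act (hinv : ∀ (h : X ≃ₜ X), ∀ K ∈ 𝓚, h '' K ∈ 𝓚) (h : X ≃ₜ X) (y : Sq 𝓚) : Sq 𝓚 where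
  s := fun n => h '' y.s n
  mem := fun n => hinv h _ (y.mem n)
  anti := fun n => image_mono (y.anti n)
  pt := h y.pt
  ipt := by
    rw [← h.injective.injOn.image_iInter_eq (s := y.s), y.ipt, image_singleton]

theorem act_act_symm (hinv : ∀ (h : X ≃ₜ X), ∀ K ∈ 𝓚, h '' K ∈ 𝓚) (h : X ≃ₜ X) (y : Sq 𝓚) :
    act hinv h (act hinv h.symm y) = y := by
  refine Sq.ext' fun n => ?_
  change h '' (h.symm '' y.s n) = y.s n
  rw [← image_comp]
  simp

theorem continuous_act (hinv : ∀ (h : X ≃ₜ X), ∀ K ∈ 𝓚, h '' K ∈ 𝓚) (h : X ≃ₜ X) :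
    Continuous (act hinv h) := by
  refine ⟨fun U hU => ?_⟩
  rw [isOpen_iff] at hU ⊢
  intro y hy
  obtain ⟨m, hm⟩ := hU _ hy
  refine ⟨m, fun z hz => hm _ fun i hi => ?_⟩
  change h '' z.s i = h '' y.s i
  rw [hz i hi]

theorem isOpenMap_act (hinv : ∀ (h : X ≃ₜ X), ∀ K ∈ 𝓚, h '' K ∈ 𝓚) (h : X ≃ₜ X) :
    IsOpenMap (act hinv h) := by
  intro U hU
  have e : act hinv h '' U = act hinv h.symm ⁻¹' U := by
    ext y
    constructor
    · rintro ⟨z, hz, rfl⟩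
      have := act_act_symm hinv h.symm z
      rw [Homeomorph.symm_symm] at this
      change act hinv h.symm (act hinv h z) ∈ U
      rwa [this]
    · intro hy
      exact ⟨_, hy, act_act_symm hinv h y⟩
  rw [e]
  exact hU.preimage (continuous_act hinv h.symm)

/-- the hypothesis that sets of each size can be found below any member -/
def Shrink (𝓚 : Set (Set X)) (small : ℕ → Set X → Prop) : Prop :=
  ∀ n, ∀ K ∈ 𝓚, ∃ L ∈ 𝓚, L ⊆ K ∧ small n L

/-- small sets shrink to a point -/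
def Sep (small : ℕ → Set X → Prop) : Prop :=
  ∀ K : ℕ → Set X, (∀ n, small n (K n)) → ∀ x y, (∀ n, x ∈ K n) → (∀ n, y ∈ K n) → x = y

theorem exists_ipt [CompactSpace X] {small : ℕ → Set X → Prop}
    (hcl : ∀ K ∈ 𝓚, IsClosed K) (hne : ∀ K ∈ 𝓚, K.Nonempty) (hsep : Sep small)
    (s : ℕ → Set X) (hs : ∀ n, s n ∈ 𝓚) (ha : ∀ n, s (n + 1) ⊆ s n)
    (a : ℕ → ℕ) (hsm : ∀ k, small k (s (a k))) : ∃ x, (⋂ n, s n) = {x} := by
  obtain ⟨x, hx⟩ := IsCompact.nonempty_iInter_of_sequence_nonempty_isCompact_isClosed s ha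
    (fun i => hne _ (hs i)) (hcl _ (hs 0)).isCompact (fun i => hcl _ (hs i))
  refine ⟨x, Subset.antisymm (fun y hy => ?_) (singleton_subset_iff.2 hx)⟩
  rw [mem_iInter] at hx hy
  exact (hsep (fun k => s (a k)) hsm y x (fun k => hy _) fun k => hx _)

theorem exists_start [CompactSpace X] {small : ℕ → Set X → Prop}
    (hcl : ∀ K ∈ 𝓚, IsClosed K) (hne : ∀ K ∈ 𝓚, K.Nonempty) (hsmall : Shrink 𝓚 small)
    (hsep : Sep small) {L : Set X} (hL : L ∈ 𝓚) : ∃ z : Sq 𝓚, z.s 0 = L := by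
  choose! c hc1 hc2 hc3 using hsmall
  let g : ℕ → Set X := fun n => Nat.rec L (fun k K => c k K) n
  have g0 : g 0 = L := rfl
  have gs : ∀ n, g (n + 1) = c n (g n) := fun n => rfl
  have hg : ∀ n, g n ∈ 𝓚 := by
    intro n
    induction n with
    | zero => exact hL
    | succ n ih => rw [gs]; exact hc1 n _ ih
  have ha : ∀ n, g (n + 1) ⊆ g n := fun n => by rw [gs]; exact hc2 n _ (hg n)
  obtain ⟨x, hx⟩ := exists_ipt hcl hne hsep g hg ha (fun k => k + 1) (fun k => by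
    rw [gs]
    exact hc3 k _ (hg k))
  exact ⟨⟨g, hg, ha, x, hx⟩, rfl⟩

/-- one step of the fusion -/
theorem fusion_step [CompactSpace X] {small : ℕ → Set X → Prop}
    (hcl : ∀ K ∈ 𝓚, IsClosed K) (hne : ∀ K ∈ 𝓚, K.Nonempty) (hsmall : Shrink 𝓚 small)
    (hsep : Sep small) (D : Set (Sq 𝓚)) (hD : IsOpen D) (hDd : Dense D) (k : ℕ)
    (y : Sq 𝓚) (n : ℕ) : ∃ w : Sq 𝓚, ∃ m, n < m ∧ w ∈ cyl y n ∧ small k (w.s (n + 1)) ∧
      cyl w m ⊆ D := by
  obtain ⟨L, hL, hLs, hLk⟩ := hsmall k _ (y.mem n)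
  obtain ⟨z, hz⟩ := exists_start hcl hne hsmall hsep hL
  have hz0 : z.s 0 ⊆ y.s n := by rw [hz]; exact hLs
  obtain ⟨w, hw1, hw2⟩ := hDd.inter_open_nonempty (cyl (glue y n z hz0) (n + 1))
    (isOpen_cyl _ _) ⟨_, mem_cyl_self _ _⟩
  obtain ⟨m, hm⟩ := isOpen_iff.1 hD w hw2
  refine ⟨w, max m (n + 1), lt_of_lt_of_le (Nat.lt_succ_self n) (le_max_right _ _), ?_, ?_, ?_⟩
  · intro i hi
    rw [hw1 i (by omega), glue_le _ hi]
  · have := glue_gt hz0 0
    rw [hw1 (n + 1) le_rfl, ← Nat.add_zero (n + 1), this, hz]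
    exact hLk
  · intro v hv
    exact hm v fun i hi => hv i (hi.trans (le_max_left _ _))

theorem baire [CompactSpace X] {small : ℕ → Set X → Prop}
    (hcl : ∀ K ∈ 𝓚, IsClosed K) (hne : ∀ K ∈ 𝓚, K.Nonempty) (hsmall : Shrink 𝓚 small)
    (hsep : Sep small) : BaireSpace (Sq 𝓚) := by
  refine ⟨fun D hDo hDd => ?_⟩
  rw [dense_iff_inter_open]
  rintro U hU ⟨y0, hy0⟩
  obtain ⟨n0, hn0⟩ := isOpen_iff.1 hU y0 hy0
  choose! W M h1 h2 h3 h4 using fun k (p : Sq 𝓚 × ℕ) =>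
    fusion_step hcl hne hsmall hsep (D k) (hDo k) (hDd k) k p.1 p.2
  let P : ℕ → Sq 𝓚 × ℕ := fun n => Nat.rec (y0, n0) (fun k p => (W k p, M k p)) n
  have P0 : P 0 = (y0, n0) := rfl
  have Ps : ∀ k, P (k + 1) = (W k (P k), M k (P k)) := fun k => rfl
  have hlt : ∀ k, (P k).2 < (P (k + 1)).2 := fun k => by rw [Ps]; exact h1 k _
  have hle : ∀ k, k ≤ (P k).2 := by
    intro k
    induction k with
    | zero => exact Nat.zero_le _
    | succ k ih => have := hlt k; omega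
  have hmono : Monotone fun k => (P k).2 := monotone_nat_of_le_succ fun k => (hlt k).le
  have hag : ∀ k j, k ≤ j → ∀ i ≤ (P k).2, (P j).1.s i = (P k).1.s i := by
    intro k j hkj
    induction j, hkj using Nat.le_induction with
    | base => exact fun _ _ => rfl
    | succ j hkj ih =>
      intro i hi
      rw [← ih i hi, Ps]
      exact h2 j (P j) i (hi.trans (hmono hkj))
  let s : ℕ → Set X := fun i => (P i).1.s i
  have hs : ∀ k i, i ≤ (P k).2 → s i = (P k).1.s i := by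
    intro k i hi
    change (P i).1.s i = _
    rcases le_total k i with h | h
    · exact hag k i h i hi
    · exact (hag i k h i (hle i)).symm
  have hsK : ∀ n, s n ∈ 𝓚 := fun n => (P n).1.mem n
  have hsa : ∀ n, s (n + 1) ⊆ s n := by
    intro n
    rw [hs (n + 1) (n + 1) (hle _), hs (n + 1) n ((Nat.le_succ n).trans (hle _))]
    exact (P (n + 1)).1.anti n
  obtain ⟨x, hx⟩ := exists_ipt hcl hne hsep s hsK hsa (fun k => (P k).2 + 1) (fun k => by
    rw [hs (k + 1) ((P k).2 + 1) (hlt k), Ps]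
    exact h3 k (P k))
  refine ⟨⟨s, hsK, hsa, x, hx⟩, hn0 _ fun i hi => ?_, mem_iInter.2 fun k => ?_⟩
  · exact hs 0 i hi
  · refine h4 k (P k) fun i hi => ?_
    have := hs (k + 1) i (by rw [Ps]; exact hi)
    rw [Ps] at this
    exact this

/-- `K` forces `B` -/
def Forces (𝓚 : Set (Set X)) (K B : Set X) : Prop :=
  IsMeagre (below (𝓚 := 𝓚) K \ {y | y.pt ∈ B})

theorem Forces.mono {K L B : Set X} (h : Forces 𝓚 K B) (hL : L ⊆ K) : Forces 𝓚 L B :=
  IsMeagre.mono (sdiff_subset_sdiff_left (below_mono hL)) h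

theorem exists_forces (hf : Continuous fun y : Sq 𝓚 => y.pt) {B : Set X}
    (hB : @MeasurableSet X (borel X) B) (hm : ¬ IsMeagre {y : Sq 𝓚 | y.pt ∈ B}) :
    ∃ K ∈ 𝓚, Forces 𝓚 K B := by
  borelize X
  borelize (Sq 𝓚)
  have h1 : MeasurableSet {y : Sq 𝓚 | y.pt ∈ B} := hf.measurable hB
  obtain ⟨U, hU, hUB⟩ := h1.residualEq_isOpen
  have hne : U.Nonempty := by
    rw [nonempty_iff_ne_empty]
    rintro rfl
    refine hm ?_
    change {y : Sq 𝓚 | y.pt ∈ B}ᶜ ∈ residual (Sq 𝓚)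
    filter_upwards [Filter.eventuallyEq_set.1 hUB] with y hy
    exact fun h => (hy.1 h)
  obtain ⟨y, hy⟩ := hne
  obtain ⟨n, hn⟩ := isOpen_iff.1 hU y hy
  refine ⟨y.s n, y.mem n, meagre_transfer ?_⟩
  change (cyl y n \ {y | y.pt ∈ B})ᶜ ∈ residual (Sq 𝓚)
  filter_upwards [Filter.eventuallyEq_set.1 hUB] with z hz
  exact fun h => h.2 (hz.2 (hn z h.1))

theorem forces_inter [BaireSpace (Sq 𝓚)] (hst : ∀ L ∈ 𝓚, ∃ z : Sq 𝓚, z.s 0 = L)
    {L B C : Set X} (hL : L ∈ 𝓚) (hB : Forces 𝓚 L B) (hC : Forces 𝓚 L C) :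
    ∃ x ∈ L, x ∈ B ∧ x ∈ C := by
  by_contra hcon
  push Not at hcon
  obtain ⟨z, hz⟩ := hst L hL
  refine not_isMeagre_of_isOpen (isOpen_below (𝓚 := 𝓚) L) ⟨z, ?_⟩ ?_
  · change z.s 0 ⊆ L
    rw [hz]
  · refine IsMeagre.mono ?_ (hB.union hC)
    intro y hy
    by_cases h1 : y.pt ∈ B
    · exact Or.inr ⟨hy, hcon _ (hy (y.pt_mem 0)) h1⟩
    · exact Or.inl ⟨hy, h1⟩

theorem forces_univ [BaireSpace (Sq 𝓚)] (L : Set X) : Forces 𝓚 L univ := by
  have : (below (𝓚 := 𝓚) L \ {y | y.pt ∈ (univ : Set X)}) = ∅ := by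
    ext y; simp
  unfold Forces
  rw [this]
  exact IsMeagre.empty

theorem forces_image (hinv : ∀ (h : X ≃ₜ X), ∀ K ∈ 𝓚, h '' K ∈ 𝓚) {K B L : Set X}
    (hKB : Forces 𝓚 K B) (h : X ≃ₜ X) (hL : L ⊆ h '' K) : Forces 𝓚 L (h '' B) := by
  refine IsMeagre.mono ?_ (hKB.preimage_of_isOpenMap (continuous_act hinv h.symm)
    (isOpenMap_act hinv h.symm))
  rintro y ⟨hy, hyB⟩
  refine ⟨?_, fun h1 => hyB ?_⟩
  · change h.symm '' y.s 0 ⊆ K
    rintro _ ⟨x, hx, rfl⟩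
    obtain ⟨k, hk, rfl⟩ := hL (hy hx)
    simpa using hk
  · change h.symm y.pt ∈ B at h1
    exact ⟨_, h1, by simp⟩

theorem meagre_image (hinv : ∀ (h : X ≃ₜ X), ∀ K ∈ 𝓚, h '' K ∈ 𝓚) {B : Set X}
    (hB : IsMeagre {y : Sq 𝓚 | y.pt ∈ B}) (h : X ≃ₜ X) :
    IsMeagre {y : Sq 𝓚 | y.pt ∈ h '' B} := by
  refine IsMeagre.mono ?_ (hB.preimage_of_isOpenMap (continuous_act hinv h.symm)
    (isOpenMap_act hinv h.symm))
  rintro y ⟨x, hx, hxy⟩
  change h.symm y.pt ∈ B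
  rw [← hxy]
  simpa using hx

theorem borel_image (h : X ≃ₜ X) {B : Set X} (hB : @MeasurableSet X (borel X) B) :
    @MeasurableSet X (borel X) (h '' B) := by
  borelize X
  rw [h.image_eq_preimage_symm]
  exact h.symm.continuous.measurable hB

end top

end AbstractMax

open AbstractMax in
theorem abstract_max {X : Type*} [TopologicalSpace X] [CompactSpace X] [T2Space X]
    (𝓚 : Set (Set X)) (small : ℕ → Set X → Prop)
    (hcl : ∀ K ∈ 𝓚, IsClosed K) (hne : ∀ K ∈ 𝓚, K.Nonempty)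
    (hinv : ∀ (h : X ≃ₜ X), ∀ K ∈ 𝓚, h '' K ∈ 𝓚)
    (hsmall : ∀ n, ∀ K ∈ 𝓚, ∃ L ∈ 𝓚, L ⊆ K ∧ small n L)
    (hsep : ∀ K : ℕ → Set X, (∀ n, small n (K n)) → ∀ x y, (∀ n, x ∈ K n) → (∀ n, y ∈ K n) →
      x = y)
    (hcount : ∀ K ∈ 𝓚, ∃ h : ℕ → (X ≃ₜ X), ∀ K' ∈ 𝓚, ∃ n, ∃ L ∈ 𝓚, L ⊆ K' ∧ L ⊆ h n '' K)
    (htwo : ∀ K ∈ 𝓚, ∃ L₁ ∈ 𝓚, ∃ L₂ ∈ 𝓚, L₁ ⊆ K ∧ L₂ ⊆ K ∧ Disjoint L₁ L₂)
    (hnd : ∃ H ∈ 𝓚, interior H = ∅) :
    ∃ I : Set (Set X), IsMaximalInvariant I ∧ ∃ A ∈ I, IsMeagre Aᶜ := by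
  have hst : ∀ L ∈ 𝓚, ∃ z : Sq 𝓚, z.s 0 = L := fun L hL =>
    exists_start hcl hne hsmall hsep hL
  have : BaireSpace (Sq 𝓚) := baire hcl hne hsmall hsep
  have hf : Continuous fun y : Sq 𝓚 => y.pt := continuous_pt hcl
  obtain ⟨H, hH, hHi⟩ := hnd
  refine ⟨{A | ∃ B, A ⊆ B ∧ @MeasurableSet X (borel X) B ∧ IsMeagre {y : Sq 𝓚 | y.pt ∈ B}},
    ⟨⟨?_, ?_, ?_⟩, ?_, ?_, ⟨?_, ?_⟩, ?_⟩, ?_⟩
  · refine ⟨∅, Subset.rfl, @MeasurableSet.empty X (borel X), ?_⟩
    exact IsMeagre.empty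
  · rintro A ⟨B, hAB, hB, hBm⟩ A' hA'
    exact ⟨B, hA'.trans hAB, hB, hBm⟩
  · intro f hff
    choose B hAB hB hBm using hff
    refine ⟨⋃ n, B n, iUnion_mono hAB, @MeasurableSet.iUnion X ℕ (borel X) _ _ hB, ?_⟩
    have : {y : Sq 𝓚 | y.pt ∈ ⋃ n, B n} = ⋃ n, {y : Sq 𝓚 | y.pt ∈ B n} := by
      ext y; simp
    rw [this]
    exact isMeagre_iUnion hBm
  · rintro h A ⟨B, hAB, hB, hBm⟩
    exact ⟨h '' B, image_mono hAB, borel_image h hB, meagre_image hinv hBm h⟩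
  · rintro A ⟨B, hAB, hB, hBm⟩
    exact ⟨B, ⟨B, Subset.rfl, hB, hBm⟩, hAB, hB⟩
  · rintro ⟨B, hAB, hB, hBm⟩
    obtain ⟨z, -⟩ := hst H hH
    refine not_isMeagre_of_isOpen (X := Sq 𝓚) isOpen_univ ⟨z, mem_univ _⟩ ?_
    exact IsMeagre.mono (fun y _ => hAB (mem_univ y.pt)) hBm
  · intro heq
    obtain ⟨x, hx⟩ := hne H hH
    have hxI : ({x} : Set X) ∈ ({∅} : Set (Set X)) := by
      rw [← heq]
      refine ⟨{x}, Subset.rfl, ?_, ?_⟩
      · borelize X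
        exact isClosed_singleton.measurableSet
      · by_contra hcon
        have hxB : @MeasurableSet X (borel X) {x} := by
          borelize X
          exact isClosed_singleton.measurableSet
        obtain ⟨K, hK, hKx⟩ := exists_forces hf hxB hcon
        obtain ⟨L₁, hL₁, L₂, hL₂, h1, h2, h3⟩ := htwo K hK
        obtain ⟨a, ha, ha', -⟩ := forces_inter hst hL₁ (hKx.mono h1) (forces_univ L₁)
        obtain ⟨b, hb, hb', -⟩ := forces_inter hst hL₂ (hKx.mono h2) (forces_univ L₂)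
        rw [mem_singleton_iff] at ha' hb'
        subst ha'
        subst hb'
        exact disjoint_left.1 h3 ha hb
    exact singleton_ne_empty x hxI
  · intro I' hI' hI'inv hI'b hI'n hII'
    refine Subset.antisymm (fun A hA => ?_) hII'
    by_contra hAI
    obtain ⟨B, hBI', hAB, hB⟩ := hI'b A hA
    have hBm : ¬ IsMeagre {y : Sq 𝓚 | y.pt ∈ B} := fun hm => hAI ⟨B, hAB, hB, hm⟩
    obtain ⟨K, hK, hKB⟩ := exists_forces hf hB hBm
    obtain ⟨h, hh⟩ := hcount K hK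
    have hU : @MeasurableSet X (borel X) (⋃ n, h n '' B) :=
      @MeasurableSet.iUnion X ℕ (borel X) _ _ fun n => borel_image (h n) hB
    have hC : (⋃ n, h n '' B)ᶜ ∈ I' := by
      refine hII' ⟨_, Subset.rfl, @MeasurableSet.compl X _ (borel X) hU, ?_⟩
      by_contra hcon
      obtain ⟨K', hK', hK'C⟩ := exists_forces hf (@MeasurableSet.compl X _ (borel X) hU) hcon
      obtain ⟨n, L, hL, hLK', hLK⟩ := hh K' hK'
      obtain ⟨x, -, hx1, hx2⟩ := forces_inter hst hL (hK'C.mono hLK')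
        (forces_image hinv hKB (h n) hLK)
      exact hx1 (mem_iUnion.2 ⟨n, hx2⟩)
    refine hI'n.1 ?_
    have hseq := hI'.2.2 (fun n => Nat.casesOn n (⋃ n, h n '' B)ᶜ fun k => h k '' B) (by
      intro n
      cases n with
      | zero => exact hC
      | succ k => exact hI'inv (h k) B hBI')
    refine hI'.2.1 _ hseq _ ?_
    intro x _
    by_cases hx : x ∈ ⋃ n, h n '' B
    · obtain ⟨k, hk⟩ := mem_iUnion.1 hx
      exact mem_iUnion.2 ⟨k + 1, hk⟩
    · exact mem_iUnion.2 ⟨0, hx⟩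
  · obtain ⟨h, hh⟩ := hcount H hH
    have hcl' : ∀ n, IsClosed (h n '' H) := fun n => hcl _ (hinv (h n) H hH)
    have hU : @MeasurableSet X (borel X) (⋃ n, h n '' H) :=
      @MeasurableSet.iUnion X ℕ (borel X) _ _ fun n => by
        borelize X
        exact (hcl' n).measurableSet
    refine ⟨(⋃ n, h n '' H)ᶜ, ⟨_, Subset.rfl, @MeasurableSet.compl X _ (borel X) hU, ?_⟩, ?_⟩
    · by_contra hcon
      obtain ⟨K', hK', hK'C⟩ := exists_forces hf (@MeasurableSet.compl X _ (borel X) hU) hcon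
      obtain ⟨n, L, hL, hLK', hLK⟩ := hh K' hK'
      obtain ⟨x, hxL, hx1, -⟩ := forces_inter hst hL (hK'C.mono hLK') (forces_univ L)
      exact hx1 (mem_iUnion.2 ⟨n, hLK hxL⟩)
    · rw [compl_compl]
      refine isMeagre_iUnion fun n => IsNowhereDense.isMeagre ?_
      rw [(hcl' n).isNowhereDense_iff, ← (h n).image_interior, hHi, image_empty]

end HCube
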