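import Mathlib

/-!
Basic definitions for MP_1f3233_gt (maximal topologically invariant sigma-ideals on the Hilbert
cube): mod 2 chains of affine simplices in `ℕ → ℝ`.
A simplex is a list of points (the empty list is the augmentation simplex).
-/

namespace HCube

open Set Finsupp

/-- ambient space -/
abbrev E := ℕ → ℝ

/-- the Hilbert cube as a subset of `ℕ → ℝ` -/
def Q : Set E := {x | ∀ i, 0 ≤ x i ∧ x i ≤ 1}

/-- mod 2 chains -/
abbrev C := List E →₀ ZMod 2

/-- the basis chain of a simplex -/
noncomputable abbrev sg (l : List E) : C := Finsupp.single l 1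

/-- cone with apex `x` -/
noncomputable def cone (x : E) : C →ₗ[ZMod 2] C :=
  Finsupp.lmapDomain (ZMod 2) (ZMod 2) (List.cons x)

/-- image of a chain under a map of vertices -/
noncomputable def mapc (g : E → E) : C →ₗ[ZMod 2] C :=
  Finsupp.lmapDomain (ZMod 2) (ZMod 2) (List.map g)

/-- linear extension of a map given on simplices -/
noncomputable def ext (F : List E → C) : C →ₗ[ZMod 2] C :=
  Finsupp.linearCombination (ZMod 2) F

/-- (augmented) boundary of a simplex -/
noncomputable def bdl : List E → C
  | [] => 0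
  | x :: l => sg l + cone x (bdl l)

/-- (augmented) boundary of a chain -/
noncomputable def bd : C →ₗ[ZMod 2] C := ext bdl

/-- the geometric simplex -/
def hull (l : List E) : Set E := convexHull ℝ {x | x ∈ l}

/-- chains all of whose simplices lie in `U` -/
noncomputable def CU (U : Set E) : Submodule (ZMod 2) C :=
  Finsupp.supported (ZMod 2) (ZMod 2) {l | hull l ⊆ U}

/-- chains all of whose simplices have exactly `n` vertices -/
noncomputable def Len (n : ℕ) : Submodule (ZMod 2) C :=
  Finsupp.supported (ZMod 2) (ZMod 2) {l | l.length = n}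

/-- `K` is homologically essential in the Hilbert cube -/
def Ess (K : Set E) : Prop :=
  ∃ p : ℕ, 1 ≤ p ∧ ∃ z : C, z ∈ CU (Q \ K) ∧ z ∈ Len p ∧ bd z = 0 ∧
    ∀ w ∈ CU (Q \ K), bd w ≠ z

/-- a cycle witnessing that `K` is essential, living in the coordinates `I` only, whose
cylinder avoids `K` -/
def CylW (K : Set E) (I : Set ℕ) (p : ℕ) (z : C) : Prop :=
  1 ≤ p ∧ z ∈ Len p ∧ bd z = 0 ∧ (∀ w ∈ CU (Q \ K), bd w ≠ z) ∧
    (∀ l ∈ z.support, ∀ v ∈ l, v ∈ Q ∧ ∀ i ∉ I, v i = 0) ∧
    (∀ l ∈ z.support, ∀ x ∈ hull l, ∀ y ∈ Q, (∀ i ∈ I, y i = x i) → y ∉ K)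

/-! ### elementary facts -/

@[simp] lemma ext_sg (F : List E → C) (l : List E) : ext F (sg l) = F l := by
  simp [ext]

@[simp] lemma cone_sg (x : E) (l : List E) : cone x (sg l) = sg (x :: l) := by
  simp [cone]

@[simp] lemma mapc_sg (g : E → E) (l : List E) : mapc g (sg l) = sg (l.map g) := by
  simp [mapc]

@[simp] lemma bd_sg (l : List E) : bd (sg l) = bdl l := by
  simp [bd]

@[simp] lemma bdl_nil : bdl [] = 0 := rfl

@[simp] lemma bdl_cons (x : E) (l : List E) : bdl (x :: l) = sg l + cone x (bdl l) := rfl

/-- every chain is a sum of basis simplices -/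
lemma chain_induction {p : C → Prop} (h0 : p 0) (ha : ∀ a b, p a → p b → p (a + b))
    (hs : ∀ l, p (sg l)) (c : C) : p c := by
  induction c using Finsupp.induction_linear with
  | zero => exact h0
  | add f g hf hg => exact ha f g hf hg
  | single l a =>
    have : a = 0 ∨ a = 1 := by
      revert a
      decide
    rcases this with rfl | rfl
    · simpa using h0
    · exact hs l

lemma lin_ext {M : Type*} [AddCommGroup M] [Module (ZMod 2) M] {f g : C →ₗ[ZMod 2] M}
    (h : ∀ l, f (sg l) = g (sg l)) : f = g := by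
  ext l
  exact h l

lemma add_self (c : C) : c + c = 0 := by
  ext l
  simp only [Finsupp.coe_add, Pi.add_apply, Finsupp.coe_zero, Pi.zero_apply]
  exact CharTwo.add_self_eq_zero _

lemma bd_cone (x : E) (c : C) : bd (cone x c) = c + cone x (bd c) := by
  have : bd ∘ₗ cone x = LinearMap.id + cone x ∘ₗ bd := by
    apply lin_ext
    intro l
    simp
  exact congrArg (fun f => f c) this

lemma bd_bd (c : C) : bd (bd c) = 0 := by
  have : bd ∘ₗ bd = 0 := by
    apply lin_ext
    intro l
    simp only [LinearMap.coe_comp, Function.comp_apply, bd_sg, LinearMap.zero_apply]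
    induction l with
    | nil => simp
    | cons x l ih =>
      rw [bdl_cons, map_add, bd_sg, bd_cone, ih, map_zero, add_zero, add_self]
  exact congrArg (fun f => f c) this

lemma bd_mapc (g : E → E) (c : C) : bd (mapc g c) = mapc g (bd c) := by
  have hc : ∀ (x : E) (c : C), mapc g (cone x c) = cone (g x) (mapc g c) := by
    intro x c
    have : mapc g ∘ₗ cone x = cone (g x) ∘ₗ mapc g := by
      apply lin_ext
      intro l
      simp
    exact congrArg (fun f => f c) this
  have : bd ∘ₗ mapc g = mapc g ∘ₗ bd := by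
    apply lin_ext
    intro l
    simp only [LinearMap.coe_comp, Function.comp_apply, mapc_sg, bd_sg]
    induction l with
    | nil => simp
    | cons x l ih =>
      rw [List.map_cons, bdl_cons, bdl_cons, map_add, ih, mapc_sg, hc]
  exact congrArg (fun f => f c) this

lemma mapc_cone (g : E → E) (x : E) (c : C) : mapc g (cone x c) = cone (g x) (mapc g c) := by
  have : mapc g ∘ₗ cone x = cone (g x) ∘ₗ mapc g := by
    apply lin_ext
    intro l
    simp
  exact congrArg (fun f => f c) this

lemma mapc_mapc (g g' : E → E) (c : C) : mapc g (mapc g' c) = mapc (g ∘ g') c := by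
  have : mapc g ∘ₗ mapc g' = mapc (g ∘ g') := by
    apply lin_ext
    intro l
    simp
  exact congrArg (fun f => f c) this

lemma mem_CU {U : Set E} {c : C} : c ∈ CU U ↔ ∀ l ∈ c.support, hull l ⊆ U := by
  simp only [CU, Finsupp.mem_supported]
  constructor
  · intro h l hl
    exact h hl
  · intro h l hl
    exact h l hl

lemma mem_Len {n : ℕ} {c : C} : c ∈ Len n ↔ ∀ l ∈ c.support, l.length = n := by
  simp only [Len, Finsupp.mem_supported]
  constructor
  · intro h l hl
    exact h hl
  · intro h l hl
    exact h l hl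

lemma sg_mem_CU {U : Set E} {l : List E} : sg l ∈ CU U ↔ hull l ⊆ U := by
  simp [CU, Finsupp.mem_supported]

lemma sg_mem_Len {n : ℕ} {l : List E} : sg l ∈ Len n ↔ l.length = n := by
  simp [Len, Finsupp.mem_supported]

/-- a linear map sends a chain with simplices in `S` to `P` if it does so for all simplices
in `S` -/
lemma map_mem_of_support {M : Type*} [AddCommGroup M] [Module (ZMod 2) M]
    (f : C →ₗ[ZMod 2] M) (P : Submodule (ZMod 2) M) (c : C)
    (h : ∀ l ∈ c.support, f (sg l) ∈ P) : f c ∈ P := by
  have hc : c = c.sum (fun l a => a • sg l) := by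
    conv_lhs => rw [← Finsupp.sum_single c]
    refine Finsupp.sum_congr ?_
    intro l _
    simp
  rw [hc, Finsupp.sum, map_sum]
  refine Submodule.sum_mem _ ?_
  intro l hl
  rw [map_smul]
  exact P.smul_mem _ (h l hl)

/-- two linear maps agreeing on the simplices of a chain agree on the chain -/
lemma map_eq_of_support {M : Type*} [AddCommGroup M] [Module (ZMod 2) M]
    (f g : C →ₗ[ZMod 2] M) (c : C)
    (h : ∀ l ∈ c.support, f (sg l) = g (sg l)) : f c = g c := by
  have := map_mem_of_support (f - g) ⊥ c (by
    intro l hl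
    rw [Submodule.mem_bot, LinearMap.sub_apply, h l hl, sub_self])
  rw [Submodule.mem_bot, LinearMap.sub_apply, sub_eq_zero] at this
  exact this

lemma CU_mono {U V : Set E} (h : U ⊆ V) : CU U ≤ CU V := by
  intro c hc
  rw [mem_CU] at hc ⊢
  exact fun l hl => (hc l hl).trans h

lemma mem_CU_inter {U V : Set E} {c : C} (h1 : c ∈ CU U) (h2 : c ∈ CU V) : c ∈ CU (U ∩ V) := by
  rw [mem_CU] at *
  exact fun l hl => subset_inter (h1 l hl) (h2 l hl)

lemma hull_mono {l m : List E} (h : ∀ x ∈ l, x ∈ m) : hull l ⊆ hull m :=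
  convexHull_mono h

lemma mem_hull {l : List E} {x : E} (h : x ∈ l) : x ∈ hull l :=
  subset_convexHull ℝ _ h

lemma hull_subset {l : List E} {A : Set E} (hA : Convex ℝ A) (h : ∀ x ∈ l, x ∈ A) :
    hull l ⊆ A := convexHull_min h hA

lemma hull_convex (l : List E) : Convex ℝ (hull l) := convex_convexHull ℝ _

@[simp] lemma hull_nil : hull [] = ∅ := by simp [hull]

lemma support_cone {x : E} {c : C} {l : List E} (h : l ∈ (cone x c).support) :
    ∃ m ∈ c.support, l = x :: m := by
  classical
  have := Finsupp.mapDomain_support (f := List.cons x) (s := c) h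
  rw [Finset.mem_image] at this
  obtain ⟨m, hm, rfl⟩ := this
  exact ⟨m, hm, rfl⟩

lemma support_mapc {g : E → E} {c : C} {l : List E} (h : l ∈ (mapc g c).support) :
    ∃ m ∈ c.support, l = m.map g := by
  classical
  have := Finsupp.mapDomain_support (f := List.map g) (s := c) h
  rw [Finset.mem_image] at this
  obtain ⟨m, hm, rfl⟩ := this
  exact ⟨m, hm, rfl⟩

/-- a face of `l` has one vertex less and its vertices are vertices of `l` -/
lemma face {l m : List E} (h : m ∈ (bdl l).support) :
    m.length + 1 = l.length ∧ ∀ x ∈ m, x ∈ l := by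
  classical
  induction l generalizing m with
  | nil => simp at h
  | cons y l ih =>
    rw [bdl_cons] at h
    have := Finsupp.support_add h
    rw [Finset.mem_union] at this
    rcases this with h | h
    · have : m = l := by
        have := Finsupp.support_single_subset h
        simpa using this
      subst this
      simp only [List.length_cons, List.mem_cons, true_and]
      exact fun x hx => Or.inr hx
    · obtain ⟨m', hm', rfl⟩ := support_cone h
      obtain ⟨h1, h2⟩ := ih hm'
      constructor
      · simp [h1]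
      · intro x hx
        rw [List.mem_cons] at hx ⊢
        rcases hx with rfl | hx
        · exact Or.inl rfl
        · exact Or.inr (h2 x hx)

lemma hull_face {l m : List E} (h : m ∈ (bdl l).support) : hull m ⊆ hull l :=
  hull_mono (face h).2

lemma bd_mem_CU {U : Set E} {c : C} (h : c ∈ CU U) : bd c ∈ CU U := by
  apply map_mem_of_support
  intro l hl
  rw [bd_sg, mem_CU]
  intro m hm
  exact (hull_face hm).trans (mem_CU.1 h l hl)

lemma bd_mem_Len {n : ℕ} {c : C} (h : c ∈ Len (n + 1)) : bd c ∈ Len n := by
  apply map_mem_of_support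
  intro l hl
  rw [bd_sg, mem_Len]
  intro m hm
  have h1 := (face hm).1
  have h2 := mem_Len.1 h l hl
  omega

lemma cone_mem_CU {A : Set E} (hA : Convex ℝ A) {x : E} (hx : x ∈ A) {c : C} (hc : c ∈ CU A) :
    cone x c ∈ CU A := by
  rw [mem_CU]
  intro l hl
  obtain ⟨m, hm, rfl⟩ := support_cone hl
  apply hull_subset hA
  intro y hy
  rw [List.mem_cons] at hy
  rcases hy with rfl | hy
  · exact hx
  · exact mem_CU.1 hc m hm (mem_hull hy)

lemma cone_mem_Len {n : ℕ} {x : E} {c : C} (hc : c ∈ Len n) : cone x c ∈ Len (n + 1) := by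
  rw [mem_Len]
  intro l hl
  obtain ⟨m, hm, rfl⟩ := support_cone hl
  simp [mem_Len.1 hc m hm]

lemma mapc_mem_Len {n : ℕ} {g : E → E} {c : C} (hc : c ∈ Len n) : mapc g c ∈ Len n := by
  rw [mem_Len]
  intro l hl
  obtain ⟨m, hm, rfl⟩ := support_mapc hl
  simp [mem_Len.1 hc m hm]

lemma ext_mem {P : Submodule (ZMod 2) C} {F : List E → C} {c : C}
    (h : ∀ l ∈ c.support, F l ∈ P) : ext F c ∈ P := by
  apply map_mem_of_support
  intro l hl
  rw [ext_sg]
  exact h l hl

/-- the component with simplices of length `n` -/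
noncomputable def pr (n : ℕ) : C →ₗ[ZMod 2] C :=
  ext (fun l => if l.length = n then sg l else 0)

lemma pr_mem_Len (n : ℕ) (c : C) : pr n c ∈ Len n := by
  apply ext_mem
  intro l _
  split_ifs with h
  · exact sg_mem_Len.2 h
  · exact Submodule.zero_mem _

lemma pr_mem_CU {n : ℕ} {U : Set E} {c : C} (h : c ∈ CU U) : pr n c ∈ CU U := by
  apply ext_mem
  intro l hl
  split_ifs with h'
  · exact sg_mem_CU.2 (mem_CU.1 h l hl)
  · exact Submodule.zero_mem _

lemma pr_of_mem {n : ℕ} {c : C} (h : c ∈ Len n) : pr n c = c := by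
  have := map_eq_of_support (pr n) LinearMap.id c (by
    intro l hl
    simp [pr, mem_Len.1 h l hl])
  simpa using this

lemma pr_of_mem_ne {n m : ℕ} {c : C} (h : c ∈ Len m) (hne : m ≠ n) : pr n c = 0 := by
  have := map_eq_of_support (pr n) 0 c (by
    intro l hl
    simp [pr, mem_Len.1 h l hl, hne])
  simpa using this

lemma bd_pr (n : ℕ) (c : C) : bd (pr (n + 1) c) = pr n (bd c) := by
  have : bd ∘ₗ pr (n + 1) = pr n ∘ₗ bd := by
    apply lin_ext
    intro l
    simp only [LinearMap.coe_comp, Function.comp_apply, bd_sg]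
    by_cases h : l.length = n + 1
    · have h1 : pr (n + 1) (sg l) = sg l := by simp [pr, h]
      rw [h1, bd_sg]
      symm
      apply pr_of_mem
      have := bd_mem_Len (c := sg l) (n := n) (sg_mem_Len.2 h)
      simpa using this
    · have h1 : pr (n + 1) (sg l) = 0 := by simp [pr, h]
      rw [h1, map_zero]
      symm
      rcases Nat.eq_zero_or_pos l.length with h0 | h0
      · have : l = [] := List.eq_nil_of_length_eq_zero h0
        subst this
        simp
      · obtain ⟨k, hk⟩ : ∃ k, l.length = k + 1 := ⟨l.length - 1, by omega⟩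
        apply pr_of_mem_ne (m := k)
        · have := bd_mem_Len (c := sg l) (n := k) (sg_mem_Len.2 hk)
          simpa using this
        · omega
  exact congrArg (fun f => f c) this

lemma Q_convex : Convex ℝ Q := by
  intro x hx y hy a b ha hb hab i
  simp only [Pi.add_apply, Pi.smul_apply, smul_eq_mul]
  have h1 := hx i
  have h2 := hy i
  constructor
  · have := mul_nonneg ha h1.1
    have := mul_nonneg hb h2.1
    linarith
  · have := mul_le_mul_of_nonneg_left h1.2 ha
    have := mul_le_mul_of_nonneg_left h2.2 hb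
    linarith

lemma zero_mem_Q : (0 : E) ∈ Q := by
  intro i
  simp

lemma isClosed_Q : IsClosed Q := by
  have : Q = ⋂ i, {x : E | 0 ≤ x i ∧ x i ≤ 1} := by
    ext x
    simp [Q]
  rw [this]
  refine isClosed_iInter fun i => ?_
  exact (isClosed_le continuous_const (continuous_apply i)).inter
    (isClosed_le (continuous_apply i) continuous_const)

lemma isCompact_Q : IsCompact Q := by
  have : Q = Set.pi Set.univ (fun _ : ℕ => Set.Icc (0 : ℝ) 1) := by
    ext x
    rw [Set.mem_univ_pi]
    rfl
  rw [this]
  exact isCompact_univ_pi fun _ => isCompact_Icc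

end HCube
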