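import Pool.Agent.Helper44.HC.Basic

/-! Acyclic carriers. -/

namespace HCube

open Set Finsupp

/-- the homotopy on simplices, with a recursion depth -/
private noncomputable def Dn (Φ Ψ : List E → C) (a : List E → E) : ℕ → List E → C
  | 0, _ => 0
  | n + 1, l => cone (a l) (Φ l + Ψ l + ext (Dn Φ Ψ a n) (bdl l))

private noncomputable def D0 (Φ Ψ : List E → C) (a : List E → E) (l : List E) : C :=
  Dn Φ Ψ a l.length l

private lemma D0_nil (Φ Ψ : List E → C) (a : List E → E) : D0 Φ Ψ a [] = 0 := rfl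

private lemma D0_eq (Φ Ψ : List E → C) (a : List E → E) {l : List E} (hl : l ≠ []) :
    D0 Φ Ψ a l = cone (a l) (Φ l + Ψ l + ext (D0 Φ Ψ a) (bdl l)) := by
  obtain ⟨n, hn⟩ : ∃ n, l.length = n + 1 :=
    Nat.exists_eq_succ_of_ne_zero (fun h => hl (List.eq_nil_of_length_eq_zero h))
  have h1 : D0 Φ Ψ a l = cone (a l) (Φ l + Ψ l + ext (Dn Φ Ψ a n) (bdl l)) := by
    unfold D0
    rw [hn]
    rfl
  rw [h1]
  congr 2
  apply map_eq_of_support
  intro m hm
  have := (face hm).1
  have hmn : m.length = n := by omega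
  rw [ext_sg, ext_sg]
  unfold D0
  rw [hmn]

theorem carrier (S : Set (List E)) (hS : ∀ l ∈ S, ∀ m ∈ (bdl l).support, m ∈ S)
    (Φ Ψ : List E → C) (Car : List E → Set E) (a : List E → E)
    (hΦ0 : Φ [] = sg []) (hΨ0 : Ψ [] = sg [])
    (hΦ : ∀ l ∈ S, bd (Φ l) = ext Φ (bdl l)) (hΨ : ∀ l ∈ S, bd (Ψ l) = ext Ψ (bdl l))
    (hconv : ∀ l ∈ S, l ≠ [] → Convex ℝ (Car l)) (ha : ∀ l ∈ S, l ≠ [] → a l ∈ Car l)
    (hmono : ∀ l ∈ S, ∀ m ∈ (bdl l).support, m ≠ [] → Car m ⊆ Car l)
    (hΦc : ∀ l ∈ S, l ≠ [] → Φ l ∈ CU (Car l)) (hΨc : ∀ l ∈ S, l ≠ [] → Ψ l ∈ CU (Car l)) :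
    ∃ D : C →ₗ[ZMod 2] C,
      (∀ c : C, (∀ l ∈ c.support, l ∈ S) → bd (D c) + D (bd c) = ext Φ c + ext Ψ c) ∧
      (∀ l ∈ S, l ≠ [] → D (sg l) ∈ CU (Car l)) ∧ D (sg []) = 0 := by
  have key : ∀ n : ℕ, ∀ l ∈ S, l.length = n →
      (l ≠ [] → D0 Φ Ψ a l ∈ CU (Car l)) ∧
      bd (D0 Φ Ψ a l) + ext (D0 Φ Ψ a) (bdl l) = Φ l + Ψ l := by
    intro n
    induction n with
    | zero =>
      intro l _ hl0
      have : l = [] := List.eq_nil_of_length_eq_zero hl0
      subst this
      refine ⟨fun h => absurd rfl h, ?_⟩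
      rw [D0_nil, bdl_nil, map_zero, map_zero, hΦ0, hΨ0, add_self (sg []), add_zero]
    | succ n ih =>
      intro l hl hln
      have hne : l ≠ [] := by
        rintro rfl
        simp at hln
      have hface : ∀ m ∈ (bdl l).support, m ∈ S ∧ m.length = n := by
        intro m hm
        have := (face hm).1
        exact ⟨hS l hl m hm, by omega⟩
      -- boundary of `D (bdl l)`
      have hb : bd (ext (D0 Φ Ψ a) (bdl l)) = ext Φ (bdl l) + ext Ψ (bdl l) := by
        have h1 : (bd ∘ₗ ext (D0 Φ Ψ a) + ext (D0 Φ Ψ a) ∘ₗ bd) (bdl l)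
            = (ext Φ + ext Ψ) (bdl l) := by
          apply map_eq_of_support
          intro m hm
          have := (ih m (hface m hm).1 (hface m hm).2).2
          simpa using this
        have h2 : bd (bdl l) = 0 := by
          have := bd_bd (sg l)
          rwa [bd_sg] at this
        simpa [h2] using h1
      have hR : bd (Φ l + Ψ l + ext (D0 Φ Ψ a) (bdl l)) = 0 := by
        rw [map_add, map_add, hΦ l hl, hΨ l hl, hb, add_self]
      constructor
      · intro _
        rw [D0_eq Φ Ψ a hne]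
        apply cone_mem_CU (hconv l hl hne) (ha l hl hne)
        refine Submodule.add_mem _ (Submodule.add_mem _ (hΦc l hl hne) (hΨc l hl hne)) ?_
        apply ext_mem
        intro m hm
        by_cases hm0 : m = []
        · subst hm0
          rw [D0_nil]
          exact Submodule.zero_mem _
        · exact CU_mono (hmono l hl m hm hm0) ((ih m (hface m hm).1 (hface m hm).2).1 hm0)
      · rw [D0_eq Φ Ψ a hne, bd_cone, hR, map_zero, add_zero, add_assoc, add_self, add_zero]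
  refine ⟨ext (D0 Φ Ψ a), ?_, ?_, ?_⟩
  · intro c hc
    have h1 : (bd ∘ₗ ext (D0 Φ Ψ a) + ext (D0 Φ Ψ a) ∘ₗ bd) c = (ext Φ + ext Ψ) c := by
      apply map_eq_of_support
      intro m hm
      have := (key m.length m (hc m hm) rfl).2
      simpa using this
    simpa using h1
  · intro l hl hne
    rw [ext_sg]
    exact (key l.length l hl rfl).1 hne
  · rw [ext_sg, D0_nil]

end HCube
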