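import Pool.Agent.Helper44.HC.Fine

/-! Mayer-Vietoris. -/

namespace HCube

open Set Finsupp

theorem mayer_vietoris (K₁ K₂ : Set E) (h₁ : IsClosed K₁) (h₂ : IsClosed K₂) (a b z W : C)
    (ha : a ∈ CU (Q \ K₁)) (hb : b ∈ CU (Q \ K₂)) (hza : bd a = z) (hzb : bd b = z)
    (hW : W ∈ CU (Q \ (K₁ ∩ K₂))) (hW' : bd W = a + b) :
    ∃ V ∈ CU (Q \ (K₁ ∪ K₂)), bd V = z := by
  classical
  obtain ⟨S, T, hS, hT, hSU, hTU, hSL, hfine⟩ := exists_fine W.support
    (fun i : Bool => if i then K₁ᶜ else K₂ᶜ)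
    (by
      intro j
      cases j
      · simpa using h₂
      · simpa using h₁)
    (by
      intro l hl x hx
      have hx' := mem_CU.1 hW l hl hx
      rw [mem_iUnion]
      by_cases h : x ∈ K₁
      · exact ⟨false, fun h' => hx'.2 ⟨h, h'⟩⟩
      · exact ⟨true, h⟩)
  -- the simplices of `S W`
  have hsmall : S W ∈ Finsupp.supported (ZMod 2) (ZMod 2)
      {m : List E | hull m ⊆ K₁ᶜ ∨ hull m ⊆ K₂ᶜ} := by
    apply map_mem_of_support
    intro l hl
    rw [Finsupp.mem_supported]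
    intro m hm
    by_cases h0 : l = []
    · subst h0
      have h1 := hSL 0 (sg []) (sg_mem_Len.2 rfl)
      have h2 := mem_Len.1 h1 m hm
      have h3 : m = [] := List.eq_nil_of_length_eq_zero h2
      subst h3
      left
      simp
    · obtain ⟨j, hj⟩ := hfine l hl h0 m hm
      cases j
      · right
        simpa using hj
      · left
        simpa using hj
  have hSW : S W ∈ CU (Q \ (K₁ ∩ K₂)) := hSU _ _ hW
  set W1 : C := Finsupp.filter (fun m => hull m ⊆ K₁ᶜ) (S W) with hW1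
  set W2 : C := Finsupp.filter (fun m => ¬ hull m ⊆ K₁ᶜ) (S W) with hW2
  have hsum : W1 + W2 = S W := Finsupp.filter_add_filter_not _ _
  have hm1 : W1 ∈ CU (Q \ K₁) := by
    rw [mem_CU]
    intro m hm x hx
    rw [hW1, Finsupp.support_filter, Finset.mem_filter] at hm
    exact ⟨(mem_CU.1 hSW m hm.1 hx).1, hm.2 hx⟩
  have hm2 : W2 ∈ CU (Q \ K₂) := by
    rw [mem_CU]
    intro m hm x hx
    rw [hW2, Finsupp.support_filter, Finset.mem_filter] at hm
    refine ⟨(mem_CU.1 hSW m hm.1 hx).1, ?_⟩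
    rcases (Finsupp.mem_supported _ _).1 hsmall hm.1 with h | h
    · exact absurd h hm.2
    · exact h hx
  have e1 : bd W1 + bd W2 = S a + S b := by
    rw [← map_add, hsum, hS, hW', map_add]
  have e2 : bd W1 + S a = bd W2 + S b := by
    have h1 : bd W1 = S a + S b + bd W2 := by
      rw [← e1, add_assoc, add_self, add_zero]
    rw [h1]
    have h2 : S a + S b + bd W2 + S a = (S a + S a) + (bd W2 + S b) := by abel
    rw [h2, add_self, zero_add]
  have hbz : bd z = 0 := by rw [← hza, bd_bd]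
  have hz1 : z ∈ CU (Q \ K₁) := by rw [← hza]; exact bd_mem_CU ha
  have hz2 : z ∈ CU (Q \ K₂) := by rw [← hzb]; exact bd_mem_CU hb
  have hQ : (Q \ K₁) ∩ (Q \ K₂) ⊆ Q \ (K₁ ∪ K₂) := by
    rintro x ⟨hx1, hx2⟩
    exact ⟨hx1.1, fun h => h.elim hx1.2 hx2.2⟩
  refine ⟨bd W1 + S a + T z, ?_, ?_⟩
  · refine Submodule.add_mem _ ?_ ?_
    · refine CU_mono hQ (mem_CU_inter ?_ ?_)
      · exact Submodule.add_mem _ (bd_mem_CU hm1) (hSU _ _ ha)
      · rw [e2]
        exact Submodule.add_mem _ (bd_mem_CU hm2) (hSU _ _ hb)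
    · exact CU_mono hQ (mem_CU_inter (hTU _ _ hz1) (hTU _ _ hz2))
  · have h1 := hT z
    rw [hbz, map_zero, add_zero] at h1
    rw [map_add, map_add, bd_bd, zero_add, hS, hza, h1]
    have h2 : S z + (z + S z) = (S z + S z) + z := by abel
    rw [h2, add_self, zero_add]

end HCube
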