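import Pool.Agent.Helper44.HC.Basic

/-! The product of two affine chains (Minkowski-sum version). -/

namespace HCube

open Set Finsupp Pointwise

/-- product with fuel -/
noncomputable def Pn : ℕ → List E → List E → C
  | 0, _, _ => 0
  | _ + 1, [], _ => 0
  | _ + 1, _ :: _, [] => 0
  | n + 1, x :: l, y :: m => cone (x + y) (ext (fun l' => Pn n l' (y :: m)) (bdl (x :: l))
      + ext (Pn n (x :: l)) (bdl (y :: m)) + (if l = [] ∧ m = [] then sg [] else 0))

/-- the product of two simplices -/
noncomputable def Pp (l m : List E) : C := Pn (l.length + m.length) l m

lemma Pp_nil_left (m : List E) : Pp [] m = 0 := by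
  unfold Pp
  cases h : ([] : List E).length + m.length with
  | zero => rfl
  | succ n => rfl

lemma Pp_nil_right (l : List E) : Pp l [] = 0 := by
  unfold Pp
  cases l with
  | nil => rfl
  | cons x l => rfl

/-- the formal boundary of the product -/
noncomputable def Ff (l m : List E) : C :=
  ext (fun l' => Pp l' m) (bdl l) + ext (Pp l) (bdl m)
    + (if l.length = 1 ∧ m.length = 1 then sg [] else 0)

lemma Pp_cons (x : E) (l : List E) (y : E) (m : List E) :
    Pp (x :: l) (y :: m) = cone (x + y) (Ff (x :: l) (y :: m)) := by
  have hn : (x :: l).length + (y :: m).length = (l.length + m.length + 1) + 1 := by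
    simp only [List.length_cons]
    omega
  have h1 : ext (fun l' => Pn (l.length + m.length + 1) l' (y :: m)) (bdl (x :: l)) =
      ext (fun l' => Pp l' (y :: m)) (bdl (x :: l)) := by
    apply map_eq_of_support
    intro l' hl'
    have h2 := (face hl').1
    rw [ext_sg, ext_sg]
    unfold Pp
    have h3 : l'.length + (y :: m).length = l.length + m.length + 1 := by
      simp only [List.length_cons] at h2 ⊢
      omega
    rw [h3]
  have h2 : ext (Pn (l.length + m.length + 1) (x :: l)) (bdl (y :: m)) =
      ext (Pp (x :: l)) (bdl (y :: m)) := by
    apply map_eq_of_support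
    intro m' hm'
    have h2 := (face hm').1
    rw [ext_sg, ext_sg]
    unfold Pp
    have h3 : (x :: l).length + m'.length = l.length + m.length + 1 := by
      simp only [List.length_cons] at h2 ⊢
      omega
    rw [h3]
  have h3 : (if l = [] ∧ m = [] then sg [] else (0 : C)) =
      (if (x :: l).length = 1 ∧ (y :: m).length = 1 then sg [] else 0) := by
    refine if_congr ?_ rfl rfl
    simp
  have h0 : Pp (x :: l) (y :: m) = Pn ((l.length + m.length + 1) + 1) (x :: l) (y :: m) := by
    unfold Pp
    rw [hn]
  rw [h0, Ff, ← h1, ← h2, ← h3]
  rfl

lemma ext_add_fun (F G : List E → C) (c : C) :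
    ext (fun l => F l + G l) c = ext F c + ext G c := by
  have : ext (fun l => F l + G l) = ext F + ext G := by
    apply lin_ext
    intro l
    simp
  rw [this]
  rfl

lemma ext_zero_fun (c : C) : ext (fun _ => 0) c = 0 := by
  have : ext (fun _ => 0) = 0 := by
    apply lin_ext
    intro l
    simp
  rw [this]
  rfl

lemma ext_ext (F : List E → C) (b : C) (G : List E → C) :
    ext (fun l' => ext F (G l')) b = ext F (ext G b) := by
  have : ext (fun l' => ext F (G l')) = (ext F) ∘ₗ (ext G) := by
    apply lin_ext
    intro l
    simp
  rw [this]
  rfl

lemma ext_swap (P : List E → List E → C) (b c : C) :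
    ext (fun l' => ext (P l') c) b = ext (fun m' => ext (fun l' => P l' m') b) c := by
  induction b using chain_induction with
  | h0 =>
    simp only [map_zero]
    rw [ext_zero_fun]
  | ha a b iha ihb =>
    simp only [map_add]
    rw [ext_add_fun, iha, ihb]
  | hs l => simp

lemma eps_bdl (l : List E) (q : Prop) [Decidable q] :
    ext (fun l' => if l'.length = 1 ∧ q then sg [] else (0 : C)) (bdl l) = 0 := by
  by_cases h2 : l.length = 2
  · obtain ⟨x, y, rfl⟩ : ∃ x y, l = [x, y] := List.length_eq_two.1 h2
    have h3 : bdl [x, y] = sg [y] + sg [x] := by simp
    rw [h3, map_add, ext_sg, ext_sg]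
    simp only [List.length_cons, List.length_nil, zero_add]
    rw [add_self]
  · have := map_eq_of_support (ext (fun l' => if l'.length = 1 ∧ q then sg [] else (0 : C))) 0
      (bdl l) (by
        intro l' hl'
        have h4 := (face hl').1
        rw [ext_sg, if_neg]
        · rfl
        · intro h
          omega)
    rw [this]
    rfl

lemma bd_bdl (l : List E) : bd (bdl l) = 0 := by
  have := bd_bd (sg l)
  rwa [bd_sg] at this

theorem bd_Pp : ∀ n : ℕ, ∀ l m : List E, l.length + m.length = n → bd (Pp l m) = Ff l m := by
  intro n
  induction n using Nat.strong_induction_on with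
  | _ n ih =>
    intro l m hn
    cases l with
    | nil =>
      rw [Pp_nil_left, map_zero, Ff]
      have h1 : ext (Pp []) (bdl m) = 0 := by
        have : Pp [] = fun _ => (0 : C) := funext fun m => Pp_nil_left m
        rw [this, ext_zero_fun]
      rw [h1]
      simp
    | cons x l =>
      cases m with
      | nil =>
        rw [Pp_nil_right, map_zero, Ff]
        have h1 : ext (fun l' => Pp l' []) (bdl (x :: l)) = 0 := by
          have : (fun l' => Pp l' []) = fun _ => (0 : C) := funext fun m => Pp_nil_right m
          rw [this, ext_zero_fun]
        rw [h1]
        simp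
      | cons y m =>
        rw [Pp_cons, bd_cone]
        suffices h : bd (Ff (x :: l) (y :: m)) = 0 by
          rw [h, map_zero, add_zero]
        have t1 : bd (ext (fun l' => Pp l' (y :: m)) (bdl (x :: l))) =
            ext (fun l' => ext (Pp l') (bdl (y :: m))) (bdl (x :: l)) := by
          have e1 : bd (ext (fun l' => Pp l' (y :: m)) (bdl (x :: l))) =
              ext (fun l' => Ff l' (y :: m)) (bdl (x :: l)) := by
            refine map_eq_of_support (bd ∘ₗ ext (fun l' => Pp l' (y :: m)))
              (ext (fun l' => Ff l' (y :: m))) (bdl (x :: l)) ?_
            intro l' hl'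
            rw [LinearMap.comp_apply, ext_sg, ext_sg]
            have h4 := (face hl').1
            exact ih (l'.length + (y :: m).length) (by omega) l' (y :: m) rfl
          rw [e1]
          have e2 : (fun l' => Ff l' (y :: m)) = fun l' =>
              (ext (fun l'' => Pp l'' (y :: m)) (bdl l') + ext (Pp l') (bdl (y :: m)))
                + (if l'.length = 1 ∧ (y :: m).length = 1 then sg [] else 0) := rfl
          rw [e2, ext_add_fun, eps_bdl, add_zero, ext_add_fun, ext_ext]
          have e3 : ext bdl (bdl (x :: l)) = 0 := bd_bdl _
          rw [e3, map_zero, zero_add]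
        have t2 : bd (ext (Pp (x :: l)) (bdl (y :: m))) =
            ext (fun m' => ext (fun l' => Pp l' m') (bdl (x :: l))) (bdl (y :: m)) := by
          have e1 : bd (ext (Pp (x :: l)) (bdl (y :: m))) =
              ext (fun m' => Ff (x :: l) m') (bdl (y :: m)) := by
            refine map_eq_of_support (bd ∘ₗ ext (Pp (x :: l)))
              (ext (fun m' => Ff (x :: l) m')) (bdl (y :: m)) ?_
            intro m' hm'
            rw [LinearMap.comp_apply, ext_sg, ext_sg]
            have h4 := (face hm').1
            exact ih ((x :: l).length + m'.length) (by omega) (x :: l) m' rfl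
          rw [e1]
          have e2 : (fun m' => Ff (x :: l) m') = fun m' =>
              (ext (fun l' => Pp l' m') (bdl (x :: l)) + ext (Pp (x :: l)) (bdl m'))
                + (if m'.length = 1 ∧ (x :: l).length = 1 then sg [] else 0) := by
            funext m'
            unfold Ff
            congr 1
            refine if_congr ?_ rfl rfl
            exact and_comm
          rw [e2, ext_add_fun, eps_bdl, add_zero, ext_add_fun, ext_ext]
          have e3 : ext bdl (bdl (y :: m)) = 0 := bd_bdl _
          rw [e3, map_zero, add_zero]
        have t3 : bd (if (x :: l).length = 1 ∧ (y :: m).length = 1 then sg [] else (0 : C)) = 0 := by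
          split_ifs
          · rw [bd_sg, bdl_nil]
          · rw [map_zero]
        rw [Ff, map_add, map_add, t1, t2, t3, add_zero, ext_swap, add_self]

theorem Pp_len : ∀ n : ℕ, ∀ l m : List E, l.length + m.length = n → l ≠ [] → m ≠ [] →
    Pp l m ∈ Len (l.length + m.length - 1) := by
  intro n
  induction n using Nat.strong_induction_on with
  | _ n ih =>
    intro l m hn hl hm
    cases l with
    | nil => exact absurd rfl hl
    | cons x l =>
      cases m with
      | nil => exact absurd rfl hm
      | cons y m =>
        rw [Pp_cons]
        have h0 : (x :: l).length + (y :: m).length - 1 = (l.length + m.length) + 1 := by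
          simp only [List.length_cons]
          omega
        rw [h0]
        refine cone_mem_Len (Submodule.add_mem _ (Submodule.add_mem _ ?_ ?_) ?_)
        · apply ext_mem
          intro l' hl'
          have h4 := (face hl').1
          by_cases h5 : l' = []
          · subst h5
            rw [Pp_nil_left]
            exact Submodule.zero_mem _
          · have h6 := ih (l'.length + (y :: m).length) (by omega) l' (y :: m) rfl h5 hm
            have h7 : l'.length + (y :: m).length - 1 = l.length + m.length := by
              simp only [List.length_cons] at h4 ⊢
              omega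
            rwa [h7] at h6
        · apply ext_mem
          intro m' hm'
          have h4 := (face hm').1
          by_cases h5 : m' = []
          · subst h5
            rw [Pp_nil_right]
            exact Submodule.zero_mem _
          · have h6 := ih ((x :: l).length + m'.length) (by omega) (x :: l) m' rfl hl h5
            have h7 : (x :: l).length + m'.length - 1 = l.length + m.length := by
              simp only [List.length_cons] at h4 ⊢
              omega
            rwa [h7] at h6
        · split_ifs with h
          · simp only [List.length_cons] at h
            apply sg_mem_Len.2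
            simp only [List.length_nil]
            omega
          · exact Submodule.zero_mem _

theorem Pp_pts : ∀ n : ℕ, ∀ l m : List E, l.length + m.length = n →
    Pp l m ∈ Finsupp.supported (ZMod 2) (ZMod 2)
      {k : List E | ∀ x ∈ k, ∃ s ∈ hull l, ∃ t ∈ hull m, x = s + t} := by
  intro n
  induction n using Nat.strong_induction_on with
  | _ n ih =>
    intro l m hn
    cases l with
    | nil =>
      rw [Pp_nil_left]
      exact Submodule.zero_mem _
    | cons x l =>
      cases m with
      | nil =>
        rw [Pp_nil_right]
        exact Submodule.zero_mem _
      | cons y m =>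
        rw [Pp_cons]
        have hF : Ff (x :: l) (y :: m) ∈ Finsupp.supported (ZMod 2) (ZMod 2)
            {k : List E | ∀ z ∈ k, ∃ s ∈ hull (x :: l), ∃ t ∈ hull (y :: m), z = s + t} := by
          refine Submodule.add_mem _ (Submodule.add_mem _ ?_ ?_) ?_
          · apply ext_mem
            intro l' hl'
            have h4 := (face hl').1
            have h6 := ih (l'.length + (y :: m).length) (by omega) l' (y :: m) rfl
            rw [Finsupp.mem_supported] at h6 ⊢
            intro k hk z hz
            obtain ⟨s, hs, t, ht, e⟩ := h6 hk z hz
            exact ⟨s, hull_face hl' hs, t, ht, e⟩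
          · apply ext_mem
            intro m' hm'
            have h4 := (face hm').1
            have h6 := ih ((x :: l).length + m'.length) (by omega) (x :: l) m' rfl
            rw [Finsupp.mem_supported] at h6 ⊢
            intro k hk z hz
            obtain ⟨s, hs, t, ht, e⟩ := h6 hk z hz
            exact ⟨s, hs, t, hull_face hm' ht, e⟩
          · split_ifs
            · rw [Finsupp.mem_supported]
              intro k hk
              have : k = [] := by
                have := Finsupp.support_single_subset hk
                simpa using this
              subst this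
              intro z hz
              simp at hz
            · exact Submodule.zero_mem _
        rw [Finsupp.mem_supported] at hF ⊢
        intro k hk
        obtain ⟨k', hk', rfl⟩ := support_cone hk
        intro z hz
        rw [List.mem_cons] at hz
        rcases hz with rfl | hz
        · exact ⟨x, mem_hull List.mem_cons_self, y, mem_hull List.mem_cons_self, rfl⟩
        · exact hF hk' z hz

theorem exists_prod : ∃ P : List E → List E → C, (∀ m, P [] m = 0) ∧ (∀ l, P l [] = 0) ∧
    (∀ l m, bd (P l m) = ext (fun l' => P l' m) (bdl l) + ext (P l) (bdl m)
      + (if l.length = 1 ∧ m.length = 1 then sg [] else 0)) ∧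
    (∀ l m, l ≠ [] → m ≠ [] → P l m ∈ Len (l.length + m.length - 1)) ∧
    (∀ l m, ∀ k ∈ (P l m).support, ∀ x ∈ k, ∃ s ∈ hull l, ∃ t ∈ hull m, x = s + t) := by
  refine ⟨Pp, Pp_nil_left, Pp_nil_right, ?_, ?_, ?_⟩
  · intro l m
    exact bd_Pp _ l m rfl
  · intro l m hl hm
    exact Pp_len _ l m rfl hl hm
  · intro l m k hk
    have := Pp_pts _ l m rfl
    rw [Finsupp.mem_supported] at this
    exact this hk

end HCube
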