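import Pool.Agent.Helper44.HC.Basic

/-! Slant product with a mod 2 cochain. -/

namespace HCube

open Set Finsupp

noncomputable def slant (β : C →ₗ[ZMod 2] ZMod 2) : List E → C
  | [] => 0
  | x :: l => β (sg (x :: l)) • sg [x] + cone x (slant β l)

theorem slant_ext_cone (β : C →ₗ[ZMod 2] ZMod 2) (x : E) (a : C) :
    ext (slant β) (cone x a) = β (cone x a) • sg [x] + cone x (ext (slant β) a) := by
  have : ext (slant β) ∘ₗ cone x
      = (β ∘ₗ cone x).smulRight (sg [x]) + cone x ∘ₗ ext (slant β) := by
    apply lin_ext
    intro l
    simp [slant]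
  have h2 := congrArg (fun f => f a) this
  simpa using h2

theorem bd_slant (β : C →ₗ[ZMod 2] ZMod 2) (l : List E) :
    bd (slant β l) = ext (slant β) (bdl l) + slant (β ∘ₗ bd) l + β (sg l) • sg []
      + β (sg []) • sg l := by
  induction l with
  | nil =>
    simp only [slant, bdl_nil, map_zero, zero_add]
    exact (add_self _).symm
  | cons x l ih =>
    have h1 : bd (slant β (x :: l)) = β (sg (x :: l)) • sg [] + (slant β l
        + cone x (bd (slant β l))) := by
      simp only [slant, map_add, map_smul, bd_cone, bd_sg, bdl_cons, bdl_nil, map_zero, add_zero]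
    have h2 : ext (slant β) (bdl (x :: l)) = slant β l + (β (cone x (bdl l)) • sg [x]
        + cone x (ext (slant β) (bdl l))) := by
      rw [bdl_cons, map_add, slant_ext_cone, ext_sg]
    have h3 : slant (β ∘ₗ bd) (x :: l) = (β (sg l) • sg [x] + β (cone x (bdl l)) • sg [x])
        + cone x (slant (β ∘ₗ bd) l) := by
      simp only [slant, LinearMap.coe_comp, Function.comp_apply, bd_sg, bdl_cons, map_add,
        add_smul]
    rw [h1, h2, h3, ih]
    simp only [map_add, map_smul, cone_sg]
    have h4 : ∀ a b c d e f g h : C, a + (b + (c + d + e + f))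
        = b + (g + c) + (e + g + d) + a + f ↔ g + g = 0 := by
      intro a b c d e f g h
      constructor
      · intro H
        have : b + (g + c) + (e + g + d) + a + f = (a + (b + (c + d + e + f))) + (g + g) := by
          abel
        rw [this] at H
        exact (left_eq_add.1 H)
      · intro H
        have : b + (g + c) + (e + g + d) + a + f = (a + (b + (c + d + e + f))) + (g + g) := by
          abel
        rw [this, H, add_zero]
    exact (h4 _ _ _ _ _ _ _ 0).2 (add_self _)

theorem slant_mem_CU (β : C →ₗ[ZMod 2] ZMod 2) (l : List E) : slant β l ∈ CU (hull l) := by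
  induction l with
  | nil => exact Submodule.zero_mem _
  | cons x l ih =>
    refine Submodule.add_mem _ (Submodule.smul_mem _ _ ?_) ?_
    · exact sg_mem_CU.2 (hull_mono (by simp))
    · exact cone_mem_CU (hull_convex _) (mem_hull (by simp))
        (CU_mono (hull_mono (by intro y hy; simp [hy])) ih)

theorem slant_eq_zero (γ : C →ₗ[ZMod 2] ZMod 2) (l : List E)
    (h : ∀ m : List E, m ≠ [] → hull m ⊆ hull l → γ (sg m) = 0) : slant γ l = 0 := by
  induction l with
  | nil => rfl
  | cons x l ih =>
    have h1 : γ (sg (x :: l)) = 0 := h _ (by simp) subset_rfl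
    have h2 : slant γ l = 0 :=
      ih fun m hm hml => h m hm (hml.trans (hull_mono (by intro y hy; simp [hy])))
    rw [slant, h1, h2, map_zero, zero_smul, add_zero]

end HCube
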