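import Pool.Agent.Helper44.HC.Carrier
import Pool.Agent.Helper44.HC.MV
import Pool.Agent.Helper44.HC.Prod
import Pool.Agent.Helper44.HC.Slant

/-! The intersection theorem. -/

namespace HCube

open Set Finsupp

/-- points of the cube with coordinates in the block `I` only -/
def Blk (I : Set ℕ) : Set E := {v | v ∈ Q ∧ ∀ i ∉ I, v i = 0}

lemma Blk_convex (I : Set ℕ) : Convex ℝ (Blk I) := by
  intro x hx y hy a b ha hb hab
  refine ⟨Q_convex hx.1 hy.1 ha hb hab, fun i hi => ?_⟩
  simp [hx.2 i hi, hy.2 i hi]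

lemma zero_mem_Blk (I : Set ℕ) : (0 : E) ∈ Blk I := ⟨zero_mem_Q, fun _ _ => rfl⟩

/-- cylinder over a simplex, in the coordinates `I` -/
def CarI (I : Set ℕ) (s : List E) : Set E := {y | y ∈ Q ∧ ∃ x ∈ hull s, ∀ i ∈ I, y i = x i}

lemma CarI_convex (I : Set ℕ) (s : List E) : Convex ℝ (CarI I s) := by
  rintro y ⟨hy, x, hx, hyx⟩ y' ⟨hy', x', hx', hyx'⟩ a b ha hb hab
  refine ⟨Q_convex hy hy' ha hb hab, a • x + b • x', hull_convex s hx hx' ha hb hab, ?_⟩
  intro i hi
  simp [hyx i hi, hyx' i hi]

lemma CarI_mono (I : Set ℕ) {s t : List E} (h : hull s ⊆ hull t) : CarI I s ⊆ CarI I t := by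
  rintro y ⟨hy, x, hx, hyx⟩
  exact ⟨hy, x, h hx, hyx⟩

lemma hull_subset_CarI (I : Set ℕ) {s : List E} (h : ∀ x ∈ s, x ∈ Q) : hull s ⊆ CarI I s := by
  intro x hx
  exact ⟨hull_subset Q_convex h hx, x, hx, fun _ _ => rfl⟩

lemma add_mem_Q {I J : Set ℕ} (hIJ : Disjoint I J) {s t : E} (hs : s ∈ Blk I) (ht : t ∈ Blk J) :
    s + t ∈ Q ∧ (∀ i ∈ I, (s + t) i = s i) ∧ (∀ i ∈ J, (s + t) i = t i) := by
  have h1 : ∀ i ∈ I, (s + t) i = s i := by
    intro i hi
    have : i ∉ J := Set.disjoint_left.1 hIJ hi
    simp [ht.2 i this]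
  have h2 : ∀ i ∈ J, (s + t) i = t i := by
    intro i hi
    have : i ∉ I := Set.disjoint_right.1 hIJ hi
    simp [hs.2 i this]
  refine ⟨?_, h1, h2⟩
  intro i
  by_cases hi : i ∈ I
  · rw [h1 i hi]
    exact hs.1 i
  · by_cases hj : i ∈ J
    · rw [h2 i hj]
      exact ht.1 i
    · simp [hs.2 i hi, ht.2 i hj]

/-- bilinear extension -/
noncomputable def bil (P : List E → List E → C) : C →ₗ[ZMod 2] (C →ₗ[ZMod 2] C) :=
  Finsupp.linearCombination (ZMod 2) (fun l => ext (P l))

@[simp] lemma bil_sg (P : List E → List E → C) (l : List E) : bil P (sg l) = ext (P l) := by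
  simp [bil]

/-- number of vertices of `0`-simplices mod 2 -/
noncomputable def eps : C →ₗ[ZMod 2] ZMod 2 :=
  Finsupp.linearCombination (ZMod 2) (fun l => if l.length = 1 then (1 : ZMod 2) else 0)

lemma eps_sg (l : List E) : eps (sg l) = if l.length = 1 then (1 : ZMod 2) else 0 := by
  simp [eps]

lemma ext_sg_id (c : C) : ext (fun l => sg l) c = c := by
  have : ext (fun l => sg l) = LinearMap.id := by
    apply lin_ext
    intro l
    simp
  rw [this]
  rfl

lemma bdl_nil_coeff (l : List E) : (bdl l) [] = if l.length = 1 then (1 : ZMod 2) else 0 := by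
  cases l with
  | nil => simp
  | cons x l =>
    rw [bdl_cons, Finsupp.add_apply]
    have h1 : (cone x (bdl l)) [] = 0 := by
      by_contra h
      have : [] ∈ (cone x (bdl l)).support := by
        rw [Finsupp.mem_support_iff]
        exact h
      obtain ⟨m, _, hm⟩ := support_cone this
      simp at hm
    rw [h1, add_zero]
    cases l with
    | nil => simp
    | cons y l => simp

lemma eps_eq (a : C) : eps a = (bd a) [] := by
  have : eps = (Finsupp.lapply [] : C →ₗ[ZMod 2] ZMod 2) ∘ₗ bd := by
    apply lin_ext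
    intro l
    rw [eps_sg, LinearMap.comp_apply, bd_sg, Finsupp.lapply_apply, bdl_nil_coeff]
  rw [this]
  rfl

lemma eps_eq_zero {a : C} (h : bd a = 0) : eps a = 0 := by
  rw [eps_eq, h]
  rfl

section

variable {P : List E → List E → C}

lemma bd_bil (hP : ∀ l m, bd (P l m) = ext (fun l' => P l' m) (bdl l) + ext (P l) (bdl m)
      + (if l.length = 1 ∧ m.length = 1 then sg [] else 0)) (a c : C) :
    bd (bil P a c) = bil P (bd a) c + bil P a (bd c) + (eps a * eps c) • sg [] := by
  induction a using chain_induction with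
  | h0 => simp
  | ha a a' h h' =>
    simp only [map_add, LinearMap.add_apply, h, h', add_mul, add_smul]
    abel
  | hs l =>
    induction c using chain_induction with
    | h0 => simp
    | ha c c' h h' =>
      simp only [map_add, h, h', mul_add, add_smul]
      abel
    | hs m =>
      rw [bil_sg, ext_sg, hP, bd_sg, bd_sg, eps_sg, eps_sg]
      congr 1
      · congr 1
        have : ext (fun l' => P l' m) = (LinearMap.applyₗ (sg m)) ∘ₗ (bil P) := by
          apply lin_ext
          intro l'
          simp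
        rw [this]
        rfl
      · by_cases h1 : l.length = 1 <;> by_cases h2 : m.length = 1 <;> simp [h1, h2]

lemma bil_mem {U : Submodule (ZMod 2) C} {a c : C}
    (h : ∀ l ∈ a.support, ∀ m ∈ c.support, P l m ∈ U) : bil P a c ∈ U := by
  have := map_mem_of_support ((LinearMap.applyₗ c) ∘ₗ (bil P)) U a (by
    intro l hl
    rw [LinearMap.comp_apply, bil_sg]
    exact ext_mem (h l hl))
  exact this

lemma bd_ext_slant (β : C →ₗ[ZMod 2] ZMod 2) (a : C) :
    bd (ext (slant β) a) = ext (slant β) (bd a) + ext (slant (β ∘ₗ bd)) a + β a • sg []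
      + β (sg []) • a := by
  induction a using chain_induction with
  | h0 => simp
  | ha a a' h h' =>
    simp only [map_add, h, h', add_smul, smul_add]
    abel
  | hs l => rw [ext_sg, bd_slant, bd_sg, ext_sg]

end

theorem ess_inter (K' K : Set E) (hK' : IsClosed K') (hK : IsClosed K)
    (I J : Set ℕ) (hIJ : Disjoint I J) (p q : ℕ) (z c : C) (hz : CylW K' I p z)
    (hc : CylW K J q c) : Ess (K' ∩ K) := by
  classical
  obtain ⟨P, hP0, hP0', hPb, hPL, hPs⟩ := exists_prod
  obtain ⟨hp, hzL, hzb, hzn, hzB, hzC⟩ := hz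
  obtain ⟨hq, hcL, hcb, hcn, hcB, hcC⟩ := hc
  -- hulls of faces lie in the blocks
  have hullI : ∀ s : List E, (∀ x ∈ s, x ∈ Blk I) → hull s ⊆ Blk I :=
    fun s hs => hull_subset (Blk_convex I) hs
  have hullJ : ∀ s : List E, (∀ x ∈ s, x ∈ Blk J) → hull s ⊆ Blk J :=
    fun s hs => hull_subset (Blk_convex J) hs
  -- supports of products
  have prodI : ∀ s t : List E, (∀ x ∈ s, x ∈ Blk I) → (∀ x ∈ t, x ∈ Blk J) →
      P s t ∈ CU (CarI I s) := by
    intro s t hs ht
    rw [mem_CU]
    intro k hk
    apply hull_subset (CarI_convex I s)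
    intro x hx
    obtain ⟨u, hu, v, hv, rfl⟩ := hPs s t k hk x hx
    obtain ⟨h1, h2, h3⟩ := add_mem_Q hIJ (hullI s hs hu) (hullJ t ht hv)
    exact ⟨h1, u, hu, h2⟩
  have prodJ : ∀ s t : List E, (∀ x ∈ s, x ∈ Blk I) → (∀ x ∈ t, x ∈ Blk J) →
      P s t ∈ CU (CarI J t) := by
    intro s t hs ht
    rw [mem_CU]
    intro k hk
    apply hull_subset (CarI_convex J t)
    intro x hx
    obtain ⟨u, hu, v, hv, rfl⟩ := hPs s t k hk x hx
    obtain ⟨h1, h2, h3⟩ := add_mem_Q hIJ (hullI s hs hu) (hullJ t ht hv)
    exact ⟨h1, v, hv, h3⟩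
  have carK' : ∀ l ∈ z.support, ∀ s : List E, (∀ x ∈ s, x ∈ l) → CarI I s ⊆ Q \ K' := by
    rintro l hl s hs y ⟨hy, x, hx, hyx⟩
    exact ⟨hy, hzC l hl x (hull_mono hs hx) y hy hyx⟩
  have carK : ∀ l ∈ c.support, ∀ s : List E, (∀ x ∈ s, x ∈ l) → CarI J s ⊆ Q \ K := by
    rintro l hl s hs y ⟨hy, x, hx, hyx⟩
    exact ⟨hy, hcC l hl x (hull_mono hs hx) y hy hyx⟩
  -- the cones
  set cz : C := cone 0 z with hcz
  set cc : C := cone 0 c with hcc
  have bcz : bd cz = z := by rw [hcz, bd_cone, hzb, map_zero, add_zero]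
  have bcc : bd cc = c := by rw [hcc, bd_cone, hcb, map_zero, add_zero]
  have czB : ∀ l ∈ cz.support, ∀ v ∈ l, v ∈ Blk I := by
    intro l hl v hv
    obtain ⟨m, hm, rfl⟩ := support_cone hl
    rw [List.mem_cons] at hv
    rcases hv with rfl | hv
    · exact zero_mem_Blk I
    · exact hzB m hm v hv
  have ccB : ∀ l ∈ cc.support, ∀ v ∈ l, v ∈ Blk J := by
    intro l hl v hv
    obtain ⟨m, hm, rfl⟩ := support_cone hl
    rw [List.mem_cons] at hv
    rcases hv with rfl | hv
    · exact zero_mem_Blk J
    · exact hcB m hm v hv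
  have zne : ∀ l ∈ z.support, l ≠ [] := by
    rintro l hl rfl
    have := mem_Len.1 hzL _ hl
    simp at this
    omega
  have cne : ∀ l ∈ c.support, l ≠ [] := by
    rintro l hl rfl
    have := mem_Len.1 hcL _ hl
    simp at this
    omega
  have czL : cz ∈ Len (p + 1) := cone_mem_Len hzL
  have ccL : cc ∈ Len (q + 1) := cone_mem_Len hcL
  set A : C := bil P z cc with hA
  set B : C := bil P cz c with hB
  have hAU : A ∈ CU (Q \ K') := bil_mem (fun l hl m hm =>
    CU_mono (carK' l hl l (fun _ h => h)) (prodI l m (hzB l hl) (ccB m hm)))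
  have hBU : B ∈ CU (Q \ K) := bil_mem (fun l hl m hm =>
    CU_mono (carK m hm m (fun _ h => h)) (prodJ l m (czB l hl) (hcB m hm)))
  have hbA : bd A = bil P z c := by
    rw [hA, bd_bil hPb, hzb, bcc, eps_eq_zero hzb]
    simp
  have hbB : bd B = bil P z c := by
    rw [hB, bd_bil hPb, hcb, bcz, eps_eq_zero hcb]
    simp
  have hAL : A ∈ Len (p + q) := bil_mem (fun l hl m hm => by
    have h1 := mem_Len.1 hzL l hl
    have h2 := mem_Len.1 ccL m hm
    have h3 := hPL l m (zne l hl) (by rintro rfl; simp at h2)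
    rw [h1, h2] at h3
    exact h3)
  have hBL : B ∈ Len (p + q) := bil_mem (fun l hl m hm => by
    have h1 := mem_Len.1 czL l hl
    have h2 := mem_Len.1 hcL m hm
    have h3 := hPL l m (by rintro rfl; simp at h1) (cne m hm)
    rw [h1, h2] at h3
    have : p + 1 + q - 1 = p + q := by omega
    rw [this] at h3
    exact h3)
  have hzcL : bil P z c ∈ Len (p + q - 1) := bil_mem (fun l hl m hm => by
    have h1 := mem_Len.1 hzL l hl
    have h2 := mem_Len.1 hcL m hm
    have h3 := hPL l m (zne l hl) (cne m hm)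
    rw [h1, h2] at h3
    exact h3)
  refine ⟨p + q, by omega, A + B, ?_, ?_, ?_, ?_⟩
  · refine Submodule.add_mem _ (CU_mono ?_ hAU) (CU_mono ?_ hBU)
    · exact fun x hx => ⟨hx.1, fun h => hx.2 h.1⟩
    · exact fun x hx => ⟨hx.1, fun h => hx.2 h.2⟩
  · exact Submodule.add_mem _ hAL hBL
  · rw [map_add, hbA, hbB, add_self]
  intro W hW hWeq
  obtain ⟨V, hV, hVb⟩ := mayer_vietoris K' K hK' hK A B (bil P z c) W hAU hBU hbA hbB hW hWeq
  -- homogeneous component
  set V' : C := pr (p + q) V with hV'
  have hV'U : V' ∈ CU (Q \ (K' ∪ K)) := pr_mem_CU hV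
  have hV'b : bd V' = bil P z c := by
    have h := bd_pr (p + q - 1) V
    have h1 : p + q - 1 + 1 = p + q := by omega
    rw [h1, hVb, pr_of_mem hzcL] at h
    exact h
  -- the cochain
  have hcB' : c ∉ (CU (Q \ K)).map bd := by
    rintro ⟨w, hw, hwc⟩
    exact hcn w hw hwc
  obtain ⟨β0, hβ0, hβ0'⟩ := Submodule.exists_dual_map_eq_bot_of_notMem hcB' inferInstance
  have hβ0w : ∀ w ∈ CU (Q \ K), β0 (bd w) = 0 := by
    intro w hw
    exact (Submodule.eq_bot_iff _).1 hβ0' _
      (Submodule.mem_map_of_mem (Submodule.mem_map_of_mem hw))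
  have hβ0c : β0 c = 1 := by
    have h : ∀ a : ZMod 2, a ≠ 0 → a = 1 := by decide
    exact h _ hβ0
  set β : C →ₗ[ZMod 2] ZMod 2 := β0 ∘ₗ pr q with hβ
  have hβw : ∀ w ∈ CU (Q \ K), β (bd w) = 0 := by
    intro w hw
    rw [hβ, LinearMap.comp_apply, ← bd_pr]
    exact hβ0w _ (pr_mem_CU hw)
  have hβc : β c = 1 := by
    rw [hβ, LinearMap.comp_apply, pr_of_mem hcL, hβ0c]
  have hβL : ∀ n, n ≠ q → ∀ a ∈ Len n, β a = 0 := by
    intro n hn a ha
    rw [hβ, LinearMap.comp_apply, pr_of_mem_ne ha hn, map_zero]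
  have hβnil : β (sg []) = 0 := hβL 0 (by omega) _ (sg_mem_Len.2 rfl)
  have hslz : ∀ a ∈ CU (Q \ K), ext (slant (β ∘ₗ bd)) a = 0 := by
    intro a ha
    have := ext_mem (P := ⊥) (F := slant (β ∘ₗ bd)) (c := a) (by
      intro l hl
      rw [Submodule.mem_bot]
      apply slant_eq_zero
      intro m _ hm
      rw [LinearMap.comp_apply]
      exact hβw _ (sg_mem_CU.2 (hm.trans (mem_CU.1 ha l hl))))
    simpa using this
  have hslV : bd (ext (slant β) V') = ext (slant β) (bil P z c) := by
    have hsub : Q \ (K' ∪ K) ⊆ Q \ K := fun x hx => ⟨hx.1, fun h => hx.2 (Or.inr h)⟩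
    rw [bd_ext_slant, hV'b, hslz V' (CU_mono hsub hV'U),
      hβL (p + q) (by omega) V' (pr_mem_Len _ _), hβnil]
    simp
  have hslVU : ext (slant β) V' ∈ CU (Q \ K') := by
    apply ext_mem
    intro l hl
    refine CU_mono ?_ (slant_mem_CU β l)
    exact (mem_CU.1 hV'U l hl).trans (fun x hx => ⟨hx.1, fun h => hx.2 (Or.inl h)⟩)
  -- value on the slices
  have hslice : ∀ s ∈ Blk I, β (bil P (sg [s]) c) = 1 := by
    intro s hs
    obtain ⟨D, hD1, hD2, -⟩ := carrier {t | ∃ τ ∈ c.support, ∀ x ∈ t, x ∈ τ}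
      (by
        rintro l ⟨τ, hτ, hl⟩ m hm
        exact ⟨τ, hτ, fun x hx => hl x ((face hm).2 x hx)⟩)
      (fun t => if t = [] then sg [] else P [s] t) (fun t => sg t) (CarI J)
      (fun t => t.headD 0) (by simp) rfl
      (by
        rintro t ⟨τ, hτ, ht⟩
        by_cases h0 : t = []
        · subst h0
          simp
        · simp only [if_neg h0]
          rw [hPb]
          have h1 : ext (fun l' => P l' t) (bdl [s]) = 0 := by
            simp [hP0]
          rw [h1, zero_add]
          by_cases hl : t.length = 1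
          · obtain ⟨x, rfl⟩ := List.length_eq_one_iff.1 hl
            simp [hP0']
          · simp only [List.length_cons, List.length_nil, zero_add, hl, and_false, if_false,
              add_zero]
            apply map_eq_of_support
            intro m hm
            have hm1 := (face hm).1
            have : m ≠ [] := by
              rintro rfl
              simp at hm1
              omega
            simp [this])
      (by
        intro t _
        rw [bd_sg, ext_sg_id])
      (fun t _ _ => CarI_convex J t)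
      (by
        rintro t ⟨τ, hτ, ht⟩ h0
        cases t with
        | nil => exact absurd rfl h0
        | cons x t =>
          have hx : x ∈ x :: t := List.mem_cons_self ..
          exact ⟨(hcB τ hτ x (ht x hx)).1, x, mem_hull hx, fun _ _ => rfl⟩)
      (fun t _ m hm _ => CarI_mono J (hull_face hm))
      (by
        rintro t ⟨τ, hτ, ht⟩ h0
        simp only [if_neg h0]
        exact prodJ [s] t (by
          intro x hx
          rw [List.mem_singleton] at hx
          rw [hx]
          exact hs) (fun x hx => hcB τ hτ x (ht x hx)))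
      (by
        rintro t ⟨τ, hτ, ht⟩ _
        exact sg_mem_CU.2 (hull_subset_CarI J (fun x hx => (hcB τ hτ x (ht x hx)).1)))
    have h := hD1 c (fun l hl => ⟨l, hl, fun _ h => h⟩)
    rw [hcb, map_zero, add_zero, ext_sg_id] at h
    have h2 : ext (fun t => if t = [] then sg [] else P [s] t) c = bil P (sg [s]) c := by
      rw [bil_sg]
      apply map_eq_of_support
      intro l hl
      simp [cne l hl]
    rw [h2] at h
    have hDc : D c ∈ CU (Q \ K) := by
      apply map_mem_of_support
      intro l hl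
      exact CU_mono (carK l hl l (fun _ h => h)) (hD2 l ⟨l, hl, fun _ h => h⟩ (cne l hl))
    have h3 := congrArg β h
    rw [hβw _ hDc, map_add, hβc] at h3
    have h4 : ∀ a : ZMod 2, 0 = a + 1 → a = 1 := by decide
    exact h4 _ h3
  -- the chain map theta
  obtain ⟨D, hD1, hD2, -⟩ := carrier {s | ∃ σ ∈ z.support, ∀ x ∈ s, x ∈ σ}
    (by
      rintro l ⟨τ, hτ, hl⟩ m hm
      exact ⟨τ, hτ, fun x hx => hl x ((face hm).2 x hx)⟩)
    (fun s => if s = [] then sg [] else ext (slant β) (bil P (sg s) c)) (fun t => sg t) (CarI I)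
    (fun t => t.headD 0) (by simp) rfl
    (by
      rintro s ⟨σ, hσ, hs⟩
      by_cases h0 : s = []
      · subst h0
        simp
      · simp only [if_neg h0]
        have hsB : ∀ x ∈ s, x ∈ Blk I := fun x hx => hzB σ hσ x (hs x hx)
        have haU : bil P (sg s) c ∈ CU (Q \ K) := by
          rw [bil_sg]
          apply ext_mem
          intro τ hτ
          exact CU_mono (carK τ hτ τ (fun _ h => h)) (prodJ s τ hsB (hcB τ hτ))
        rw [bd_ext_slant, hslz _ haU, hβnil, zero_smul, add_zero, add_zero, bd_bil hPb, hcb,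
          eps_eq_zero hcb, mul_zero, zero_smul, add_zero, map_zero, add_zero, bd_sg]
        by_cases hl : s.length = 1
        · obtain ⟨x, rfl⟩ := List.length_eq_one_iff.1 hl
          rw [hslice x (hsB x (List.mem_singleton.2 rfl)), one_smul]
          have h1 : bdl [x] = sg [] := by simp
          have h2 : bil P (sg []) c = 0 := by
            rw [bil_sg]
            have : ext (P []) = 0 := by
              apply lin_ext
              intro l
              simp [hP0]
            rw [this]
            rfl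
          rw [h1, h2]
          simp
        · have haL : bil P (sg s) c ∈ Len (s.length + q - 1) := by
            rw [bil_sg]
            apply ext_mem
            intro τ hτ
            have h3 := hPL s τ h0 (cne τ hτ)
            rw [mem_Len.1 hcL τ hτ] at h3
            exact h3
          have hlen : s.length ≠ 0 := by
            intro h
            exact h0 (List.length_eq_zero_iff.1 h)
          rw [hβL _ (by omega) _ haL, zero_smul, add_zero]
          have := map_eq_of_support (ext (slant β) ∘ₗ (LinearMap.applyₗ c) ∘ₗ (bil P))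
            (ext (fun s => if s = [] then sg [] else ext (slant β) (bil P (sg s) c))) (bdl s) (by
              intro m hm
              have hm1 := (face hm).1
              have : m ≠ [] := by
                rintro rfl
                simp at hm1
                omega
              rw [ext_sg, if_neg this]
              rfl)
          exact this)
    (by
      intro t _
      rw [bd_sg, ext_sg_id])
    (fun t _ _ => CarI_convex I t)
    (by
      rintro t ⟨τ, hτ, ht⟩ h0
      cases t with
      | nil => exact absurd rfl h0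
      | cons x t =>
        have hx : x ∈ x :: t := List.mem_cons_self ..
        exact ⟨(hzB τ hτ x (ht x hx)).1, x, mem_hull hx, fun _ _ => rfl⟩)
    (fun t _ m hm _ => CarI_mono I (hull_face hm))
    (by
      rintro s ⟨σ, hσ, hs⟩ h0
      simp only [if_neg h0]
      have hsB : ∀ x ∈ s, x ∈ Blk I := fun x hx => hzB σ hσ x (hs x hx)
      apply ext_mem
      intro k hk
      refine CU_mono ?_ (slant_mem_CU β k)
      have haU : bil P (sg s) c ∈ CU (CarI I s) := by
        rw [bil_sg]
        apply ext_mem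
        intro τ hτ
        exact prodI s τ hsB (hcB τ hτ)
      exact mem_CU.1 haU k hk)
    (by
      rintro t ⟨τ, hτ, ht⟩ _
      exact sg_mem_CU.2 (hull_subset_CarI I (fun x hx => (hzB τ hτ x (ht x hx)).1)))
  have h := hD1 z (fun l hl => ⟨l, hl, fun _ h => h⟩)
  rw [hzb, map_zero, add_zero, ext_sg_id] at h
  have h2 : ext (fun s => if s = [] then sg [] else ext (slant β) (bil P (sg s) c)) z
      = ext (slant β) (bil P z c) := by
    have := map_eq_of_support
      (ext (fun s => if s = [] then sg [] else ext (slant β) (bil P (sg s) c)))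
      (ext (slant β) ∘ₗ (LinearMap.applyₗ c) ∘ₗ (bil P)) z (by
        intro m hm
        rw [ext_sg, if_neg (zne m hm)]
        rfl)
    exact this
  have hDz : D z ∈ CU (Q \ K') := by
    apply map_mem_of_support
    intro l hl
    exact CU_mono (carK' l hl l (fun _ h => h)) (hD2 l ⟨l, hl, fun _ h => h⟩ (zne l hl))
  apply hzn (ext (slant β) V' + D z) (Submodule.add_mem _ hslVU hDz)
  rw [map_add, hslV, h, h2, ← add_assoc, add_self, zero_add]

end HCube
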