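import Pool.Agent.Helper44.HC.Carrier

/-! Essential sets have finite-dimensional witnesses. -/

namespace HCube

open Set Finsupp

private lemma isCompact_hull (l : List E) : IsCompact (hull l) := by
  have : {x | x ∈ l}.Finite := l.finite_toSet
  exact this.isCompact_convexHull ℝ

/-- an entourage of `ℕ → ℝ` contains all pairs agreeing on a long initial segment -/
private lemma exists_agree {V : Set (E × E)} (hV : V ∈ uniformity E) :
    ∃ N : ℕ, ∀ x y : E, (∀ i, i < N → y i = x i) → (x, y) ∈ V := by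
  rw [Pi.uniformity, Filter.mem_iInf] at hV
  obtain ⟨I, hI, W, hW, rfl⟩ := hV
  obtain ⟨N, hN⟩ := hI.bddAbove
  refine ⟨N + 1, fun x y hxy => ?_⟩
  rw [mem_iInter]
  intro i
  obtain ⟨t, ht, hti⟩ := hW i
  apply hti
  have h1 : y (i : ℕ) = x (i : ℕ) := hxy i (Nat.lt_succ_of_le (hN i.2))
  simp only [mem_preimage, h1]
  exact refl_mem_uniformity ht

private lemma exists_N {A K : Set E} (hA : IsCompact A) (hK : IsClosed K) (hAK : A ⊆ Kᶜ) :
    ∃ N : ℕ, ∀ x ∈ A, ∀ y : E, (∀ i, i < N → y i = x i) → y ∉ K := by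
  obtain ⟨V, hV, -, hV2⟩ := lebesgue_number_of_compact_open hA hK.isOpen_compl hAK
  obtain ⟨N, hN⟩ := exists_agree hV
  exact ⟨N, fun x hx y hxy => hV2 x hx (hN x y hxy)⟩

/-- truncation to the first `N` coordinates -/
private def tau (N : ℕ) (x : E) : E := fun i => if i < N then x i else 0

private lemma tau_of_lt {N i : ℕ} (x : E) (h : i < N) : tau N x i = x i := if_pos h

private lemma tau_of_ge {N i : ℕ} (x : E) (h : ¬ i < N) : tau N x i = 0 := if_neg h

private lemma tau_mem_Q {N : ℕ} {x : E} (h : x ∈ Q) : tau N x ∈ Q := by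
  intro i
  by_cases hi : i < N
  · rw [tau_of_lt x hi]
    exact h i
  · rw [tau_of_ge x hi]
    simp

/-- the cylinder over a simplex -/
private def cyl (N : ℕ) (l : List E) : Set E := {y | y ∈ Q ∧ ∃ x ∈ hull l, ∀ i, i < N → y i = x i}

private lemma cyl_convex (N : ℕ) (l : List E) : Convex ℝ (cyl N l) := by
  rintro y ⟨hy, x, hx, hyx⟩ y' ⟨hy', x', hx', hyx'⟩ a b ha hb hab
  refine ⟨Q_convex hy hy' ha hb hab, a • x + b • x', hull_convex l hx hx' ha hb hab, ?_⟩
  intro i hi
  simp only [Pi.add_apply, Pi.smul_apply, smul_eq_mul, hyx i hi, hyx' i hi]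

private lemma cyl_mono (N : ℕ) {l m : List E} (h : hull l ⊆ hull m) : cyl N l ⊆ cyl N m := by
  rintro y ⟨hy, x, hx, hyx⟩
  exact ⟨hy, x, h hx, hyx⟩

private lemma hull_subset_cyl (N : ℕ) {l : List E} (h : hull l ⊆ Q) : hull l ⊆ cyl N l :=
  fun x hx => ⟨h hx, x, hx, fun _ _ => rfl⟩

private lemma hull_map_subset_cyl (N : ℕ) {l : List E} (h : hull l ⊆ Q) :
    hull (l.map (tau N)) ⊆ cyl N l := by
  apply hull_subset (cyl_convex N l)
  intro x hx
  obtain ⟨v, hv, rfl⟩ := List.mem_map.1 hx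
  exact ⟨tau_mem_Q (h (mem_hull hv)), v, mem_hull hv, fun i hi => tau_of_lt v hi⟩

private lemma ext_sg_id (c : C) : ext (fun l => sg l) c = c := by
  have : ext (fun l => sg l) = LinearMap.id := by
    apply lin_ext
    intro l
    simp
  rw [this, LinearMap.id_apply]

private lemma ext_map (g : E → E) (c : C) : ext (fun l => sg (l.map g)) c = mapc g c := by
  have : ext (fun l => sg (l.map g)) = mapc g := by
    apply lin_ext
    intro l
    simp
  rw [this]

theorem exists_cylW (K : Set E) (hK : IsClosed K) (h : Ess K) :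
    ∃ N p : ℕ, ∃ z : C, CylW K (Set.Iio N) p z := by
  obtain ⟨p, hp, z, hz, hzl, hbd, hnb⟩ := h
  have hzQ : ∀ l ∈ z.support, hull l ⊆ Q := fun l hl x hx => (mem_CU.1 hz l hl hx).1
  have hA : IsCompact (⋃ l ∈ z.support, hull l) :=
    z.support.isCompact_biUnion fun l _ => isCompact_hull l
  have hAK : (⋃ l ∈ z.support, hull l) ⊆ Kᶜ := by
    intro x hx
    simp only [mem_iUnion] at hx
    obtain ⟨l, hl, hx⟩ := hx
    exact (mem_CU.1 hz l hl hx).2
  obtain ⟨N, hN⟩ := exists_N hA hK hAK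
  have hcyl : ∀ l ∈ z.support, cyl N l ⊆ Q \ K := by
    rintro l hl y ⟨hy, x, hx, hyx⟩
    exact ⟨hy, hN x (mem_iUnion₂.2 ⟨l, hl, hx⟩) y hyx⟩
  have hne : ∀ l ∈ z.support, l ≠ [] := by
    rintro l hl rfl
    have := mem_Len.1 hzl [] hl
    simp only [List.length_nil] at this
    omega
  refine ⟨N, p, mapc (tau N) z, hp, mapc_mem_Len hzl, ?_, ?_, ?_, ?_⟩
  · rw [bd_mapc, hbd, map_zero]
  · intro w hw hbw
    let S : Set (List E) := {l | ∃ k ∈ z.support, ∀ v ∈ l, v ∈ k}
    have hSQ : ∀ l ∈ S, hull l ⊆ Q := by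
      rintro l ⟨k, hk, hlk⟩
      exact (hull_mono hlk).trans (hzQ k hk)
    obtain ⟨D, hD, hDc, -⟩ := carrier S
      (by
        rintro l ⟨k, hk, hlk⟩ m hm
        exact ⟨k, hk, fun v hv => hlk v ((face hm).2 v hv)⟩)
      (fun l => sg l) (fun l => sg (l.map (tau N))) (cyl N) (fun l => l.headD 0) rfl rfl
      (by
        intro l _
        rw [ext_sg_id, bd_sg])
      (by
        intro l _
        rw [ext_map, ← bd_sg l, ← bd_mapc, mapc_sg])
      (fun l _ _ => cyl_convex N l)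
      (by
        intro l hl hne
        obtain ⟨x, t, rfl⟩ := List.exists_cons_of_ne_nil hne
        apply hull_subset_cyl N (hSQ _ hl)
        exact mem_hull (by simp))
      (fun l _ m hm _ => cyl_mono N (hull_face hm))
      (fun l hl _ => sg_mem_CU.2 (hull_subset_cyl N (hSQ l hl)))
      (fun l hl _ => sg_mem_CU.2 (hull_map_subset_cyl N (hSQ l hl)))
    have h1 := hD z (fun l hl => ⟨l, hl, fun v hv => hv⟩)
    rw [hbd, map_zero, add_zero, ext_sg_id, ext_map] at h1
    have h2 : D z ∈ CU (Q \ K) := by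
      apply map_mem_of_support
      intro l hl
      exact CU_mono (hcyl l hl) (hDc l ⟨l, hl, fun v hv => hv⟩ (hne l hl))
    apply hnb (w + D z) (Submodule.add_mem _ hw h2)
    rw [map_add, hbw, h1, add_comm z, ← add_assoc, add_self, zero_add]
  · intro l hl v hv
    obtain ⟨m, hm, rfl⟩ := support_mapc hl
    obtain ⟨x, hx, rfl⟩ := List.mem_map.1 hv
    exact ⟨tau_mem_Q (hzQ m hm (mem_hull hx)), fun i hi => tau_of_ge x hi⟩
  · intro l hl x hx y hy hyx
    obtain ⟨m, hm, rfl⟩ := support_mapc hl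
    obtain ⟨-, x', hx', hxx'⟩ := hull_map_subset_cyl N (hzQ m hm) hx
    exact hN x' (mem_iUnion₂.2 ⟨m, hm, hx'⟩) y fun i hi => (hyx i hi).trans (hxx' i hi)

end HCube
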