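import Pool.Agent.Helper44.HC.Fine

/-! Invariance of essentiality under homeomorphisms of the cube. -/

namespace HCube

open Set Finsupp

/-- small open convex neighbourhoods -/
lemma inv_convex_nhd {U : Set E} (hU : IsOpen U) {x : E} (hx : x ∈ U) :
    ∃ A : Set E, IsOpen A ∧ Convex ℝ A ∧ x ∈ A ∧ A ⊆ U := by
  obtain ⟨S, hS, hc, hSU⟩ :=
    (locallyConvexSpace_iff_exists_convex_subset ℝ E).1 inferInstance x U (hU.mem_nhds hx)
  exact ⟨interior S, isOpen_interior, hc.interior, mem_interior_iff_mem_nhds.2 hS,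
    interior_subset.trans hSU⟩

/-- preimages of open sets under maps continuous on the cube -/
lemma inv_pre {h : E → E} (hc : ContinuousOn h Q) {A : Set E} (hA : IsOpen A) :
    ∃ O : Set E, IsOpen O ∧ ∀ y ∈ Q, (y ∈ O ↔ h y ∈ A) := by
  obtain ⟨u, hu, hu'⟩ := continuousOn_iff'.1 hc A hA
  refine ⟨u, hu, fun y hy => ?_⟩
  constructor
  · intro h1
    have : y ∈ h ⁻¹' A ∩ Q := by rw [hu']; exact ⟨h1, hy⟩
    exact this.1
  · intro h1
    have : y ∈ u ∩ Q := by rw [← hu']; exact ⟨h1, hy⟩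
    exact this.1

/-- support of the image of a chain under a linear map -/
lemma inv_support_map (f : C →ₗ[ZMod 2] C) (c : C) {m : List E} (hm : m ∈ (f c).support) :
    ∃ l ∈ c.support, m ∈ (f (sg l)).support := by
  classical
  have h := map_mem_of_support f (Finsupp.supported (ZMod 2) (ZMod 2)
    (⋃ l ∈ c.support, ((f (sg l)).support : Set (List E)))) c (by
      intro l hl
      rw [Finsupp.mem_supported]
      exact Set.subset_biUnion_of_mem (u := fun l => ((f (sg l)).support : Set (List E)))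
        (Finset.mem_coe.2 hl))
  rw [Finsupp.mem_supported] at h
  have h1 := h (Finset.mem_coe.2 hm)
  simp only [Set.mem_iUnion, Finset.mem_coe] at h1
  obtain ⟨l, hl, hl'⟩ := h1
  exact ⟨l, hl, hl'⟩

lemma inv_mapc_CU {g : E → E} {A B : Set E} (hA : Convex ℝ A) (hg : ∀ v ∈ B, g v ∈ A) {c : C}
    (hc : c ∈ CU B) : mapc g c ∈ CU A := by
  rw [mem_CU]
  intro l hl
  obtain ⟨m, hm, rfl⟩ := support_mapc hl
  refine hull_subset hA fun x hx => ?_
  rw [List.mem_map] at hx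
  obtain ⟨v, hv, rfl⟩ := hx
  exact hg v (mem_CU.1 hc m hm (mem_hull hv))

lemma inv_mapc_id {g : E → E} {c : C} (h : ∀ l ∈ c.support, ∀ v ∈ l, g v = v) : mapc g c = c := by
  have := map_eq_of_support (mapc g) LinearMap.id c (by
    intro l hl
    rw [mapc_sg, LinearMap.id_apply]
    congr 1
    conv_rhs => rw [← List.map_id l]
    exact List.map_congr_left fun v hv => h l hl v hv)
  simpa using this

lemma inv_add_cancel {a b c : C} (h : a + b = c) : a = c + b := by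
  rw [← h, add_assoc, add_self, add_zero]

/-- `h` and `h'` are mutually inverse continuous self-maps of the cube -/
theorem ess_homeo (h h' : E → E) (hc : ContinuousOn h Q) (hc' : ContinuousOn h' Q)
    (hm : ∀ x ∈ Q, h x ∈ Q) (hm' : ∀ x ∈ Q, h' x ∈ Q) (hi : ∀ x ∈ Q, h' (h x) = x)
    (hi' : ∀ x ∈ Q, h (h' x) = x) (K : Set E) (hK : IsClosed K) (hKQ : K ⊆ Q) (he : Ess K) :
    Ess (h '' K) := by
  obtain ⟨p, hp, z, hzU, hzL, hzb, hzn⟩ := he
  have hKo : IsOpen Kᶜ := hK.isOpen_compl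
  -- the neighbourhoods
  have key : ∀ x : {x : E // x ∈ Q \ K}, ∃ A B O : Set E, Convex ℝ A ∧ A ⊆ Kᶜ ∧ Convex ℝ B ∧
      (∀ y ∈ Q, y ∈ B → h' y ∈ A) ∧ IsOpen O ∧ (∀ y ∈ Q, y ∈ O → h y ∈ B) ∧ (x : E) ∈ O := by
    rintro ⟨x, hxQ, hxK⟩
    obtain ⟨A, hAo, hAc, hxA, hAK⟩ := inv_convex_nhd hKo (x := x) hxK
    obtain ⟨V, hVo, hV⟩ := inv_pre hc' hAo
    have hxV : h x ∈ V := (hV (h x) (hm x hxQ)).2 (by rw [hi x hxQ]; exact hxA)
    obtain ⟨B, hBo, hBc, hxB, hBV⟩ := inv_convex_nhd hVo hxV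
    obtain ⟨O, hOo, hO⟩ := inv_pre hc hBo
    exact ⟨A, B, O, hAc, hAK, hBc, fun y hy hyB => (hV y hy).1 (hBV hyB), hOo,
      fun y hy hyO => (hO y hy).1 hyO, (hO x hxQ).2 hxB⟩
  choose A B O hAc hAK hBc hBA hOo hOB hxO using key
  have key' : ∀ x : {x : E // x ∈ Q \ (h '' K)}, ∃ A O : Set E, Convex ℝ A ∧ A ⊆ Kᶜ ∧
      IsOpen O ∧ (∀ y ∈ Q, y ∈ O → h' y ∈ A) ∧ (x : E) ∈ O := by
    rintro ⟨x, hxQ, hxK⟩
    have hxK' : h' x ∈ Kᶜ := fun h1 => hxK ⟨h' x, h1, hi' x hxQ⟩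
    obtain ⟨A, hAo, hAc, hxA, hAK⟩ := inv_convex_nhd hKo (x := h' x) hxK'
    obtain ⟨V, hVo, hV⟩ := inv_pre hc' hAo
    exact ⟨A, V, hAc, hAK, hVo, fun y hy hyO => (hV y hy).1 hyO, (hV x hxQ).2 hxA⟩
  choose A' O' hAc' hAK' hOo' hOA' hxO' using key'
  -- subdivision of `z`
  obtain ⟨S, T, hS1, hS2, hS3, hS4, hS5, hS6⟩ := exists_fine z.support O hOo (by
    intro l hl x hx
    have hx' := mem_CU.1 hzU l hl hx
    exact mem_iUnion.2 ⟨⟨x, hx'⟩, hxO ⟨x, hx'⟩⟩)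
  have hSz : S z ∈ CU (Q \ K) := hS3 _ _ hzU
  have hTz : T z ∈ CU (Q \ K) := hS4 _ _ hzU
  have e1 : z = bd (T z) + S z := by
    have := hS2 z
    rw [hzb, map_zero, add_zero] at this
    exact inv_add_cancel this.symm
  have hfine : ∀ u ∈ (S z).support, ∃ x, hull u ⊆ O x ∩ Q := by
    intro u hu
    obtain ⟨l, hl, hl'⟩ := inv_support_map S z hu
    have hl0 : l ≠ [] := by
      rintro rfl
      have := mem_Len.1 hzL _ hl
      simp at this
      omega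
    obtain ⟨x, hx⟩ := hS6 l hl hl0 u hl'
    exact ⟨x, subset_inter hx ((mem_CU.1 hSz u hu).trans sdiff_subset)⟩
  have hB : ∀ x, B x ∩ Q ⊆ Q \ (h '' K) := by
    rintro x y ⟨hyB, hyQ⟩
    refine ⟨hyQ, ?_⟩
    rintro ⟨k, hk, rfl⟩
    have h1 := hBA x _ hyQ hyB
    rw [hi k (hKQ hk)] at h1
    exact hAK x h1 hk
  -- simplices of `y`
  have hy1 : ∀ l ∈ (mapc h (S z)).support, ∃ x, hull l ⊆ B x ∩ Q := by
    intro l hl
    obtain ⟨u, hu, rfl⟩ := support_mapc hl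
    obtain ⟨x, hx⟩ := hfine u hu
    refine ⟨x, hull_subset ((hBc x).inter Q_convex) fun w hw => ?_⟩
    rw [List.mem_map] at hw
    obtain ⟨v, hv, rfl⟩ := hw
    have h1 := hx (mem_hull hv)
    exact ⟨hOB x v h1.2 h1.1, hm v h1.2⟩
  have hyU : mapc h (S z) ∈ CU (Q \ (h '' K)) := by
    rw [mem_CU]
    intro l hl
    obtain ⟨x, hx⟩ := hy1 l hl
    exact hx.trans (hB x)
  have hyb : bd (mapc h (S z)) = 0 := by
    rw [bd_mapc, hS1, hzb, map_zero, map_zero]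
  have hyL : mapc h (S z) ∈ Len p := mapc_mem_Len (hS5 _ _ hzL)
  refine ⟨p, hp, mapc h (S z), hyU, hyL, hyb, ?_⟩
  intro w0 hw0 hbw0
  -- replace by the component of the right length
  set w := pr (p + 1) w0 with hwdef
  have hw : w ∈ CU (Q \ (h '' K)) := pr_mem_CU hw0
  have hwL : w ∈ Len (p + 1) := pr_mem_Len _ _
  have hbw : bd w = mapc h (S z) := by
    rw [hwdef, bd_pr, hbw0, pr_of_mem hyL]
  obtain ⟨S', T', hS1', hS2', hS3', hS4', hS5', hS6'⟩ := exists_fine w.support O' hOo' (by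
    intro l hl x hx
    have hx' := mem_CU.1 hw l hl hx
    exact mem_iUnion.2 ⟨⟨x, hx'⟩, hxO' ⟨x, hx'⟩⟩)
  have hW' : mapc h' (S' w) ∈ CU (Q \ K) := by
    rw [mem_CU]
    intro l hl
    obtain ⟨u, hu, rfl⟩ := support_mapc hl
    obtain ⟨l0, hl0, hl0'⟩ := inv_support_map S' w hu
    have hne : l0 ≠ [] := by
      rintro rfl
      have := mem_Len.1 hwL _ hl0
      simp at this
    obtain ⟨x, hx⟩ := hS6' l0 hl0 hne u hl0'
    have hu2 : hull u ⊆ Q := (mem_CU.1 (hS3' _ _ hw) u hu).trans sdiff_subset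
    have h3 : hull (u.map h') ⊆ A' x ∩ Q := by
      refine hull_subset ((hAc' x).inter Q_convex) fun v hv => ?_
      rw [List.mem_map] at hv
      obtain ⟨v, hv, rfl⟩ := hv
      have h1 := hx (mem_hull hv)
      have h2 := hu2 (mem_hull hv)
      exact ⟨hOA' x v h2 h1, hm' v h2⟩
    exact fun v hv => ⟨(h3 hv).2, fun hk => hAK' x (h3 hv).1 hk⟩
  have hT' : mapc h' (T' (mapc h (S z))) ∈ CU (Q \ K) := by
    refine map_mem_of_support (mapc h' ∘ₗ T') (CU (Q \ K)) (mapc h (S z)) fun l hl => ?_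
    obtain ⟨x, hx⟩ := hy1 l hl
    have h1 : T' (sg l) ∈ CU (B x ∩ Q) := hS4' _ _ (sg_mem_CU.2 hx)
    have h2 : mapc h' (T' (sg l)) ∈ CU (A x ∩ Q) :=
      inv_mapc_CU ((hAc x).inter Q_convex) (fun v hv => ⟨hBA x v hv.2 hv.1, hm' v hv.2⟩) h1
    have h3 : A x ∩ Q ⊆ Q \ K := fun v hv => ⟨hv.2, fun hk => hAK x hv.1 hk⟩
    exact CU_mono h3 h2
  have e2 : mapc h' (mapc h (S z)) = S z := by
    rw [mapc_mapc]
    refine inv_mapc_id fun l hl v hv => ?_
    exact hi v (mem_CU.1 hSz l hl (mem_hull hv)).1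
  have e3 : mapc h (S z) = bd (T' (mapc h (S z))) + S' (mapc h (S z)) := by
    have := hS2' (mapc h (S z))
    rw [hyb, map_zero, add_zero] at this
    exact inv_add_cancel this.symm
  have e4 : S z = bd (mapc h' (T' (mapc h (S z)))) + bd (mapc h' (S' w)) := by
    conv_lhs => rw [← e2, e3]
    rw [map_add, bd_mapc, bd_mapc, hS1', hbw]
  refine hzn (T z + (mapc h' (T' (mapc h (S z))) + mapc h' (S' w)))
    (Submodule.add_mem _ hTz (Submodule.add_mem _ hT' hW')) ?_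
  rw [map_add, map_add, ← e4, ← e1]

end HCube
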