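import Pool.Agent.Helper44.HC.Basic

/-! Hyperplanes are essential. -/

namespace HCube

open Set Finsupp

def plane (a : ℝ) : Set E := {x | x ∈ Q ∧ x 0 = a}

theorem isClosed_plane (a : ℝ) : IsClosed (plane a) :=
  isClosed_Q.inter (isClosed_eq (continuous_apply 0) continuous_const)

/-- side function on simplices with one vertex -/
noncomputable def plSide (a : ℝ) : List E → ZMod 2
  | [v] => by classical exact if v 0 < a then 1 else 0
  | _ => 0

lemma plSide_nil (a : ℝ) : plSide a [] = 0 := rfl

lemma plSide_single (a : ℝ) (v : E) [Decidable (v 0 < a)] :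
    plSide a [v] = if v 0 < a then 1 else 0 := by
  by_cases h : v 0 < a <;> simp [plSide, h]

lemma plSide_of_length (a : ℝ) {l : List E} (h : 2 ≤ l.length) : plSide a l = 0 := by
  match l, h with
  | x :: y :: t, _ => rfl

/-- a functional vanishing on the simplices of a chain vanishes on the chain -/
lemma lam_eq_zero (f : C →ₗ[ZMod 2] ZMod 2) (c : C) (h : ∀ l ∈ c.support, f (sg l) = 0) :
    f c = 0 := by
  have := map_eq_of_support f 0 c (fun l hl => by rw [h l hl]; rfl)
  rw [this]
  rfl

lemma hull_singleton (v : E) : hull [v] = {v} := by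
  have : {x | x ∈ [v]} = ({v} : Set E) := by
    ext x
    simp
  rw [hull, this, convexHull_singleton]

lemma plane_same_side {a : ℝ} {x y : E} (h : hull [x, y] ⊆ Q \ plane a) :
    x 0 < a ↔ y 0 < a := by
  have key : ∀ x y : E, (∀ z ∈ [x, y], z ∈ ({x, y} : Set E)) → hull [x, y] ⊆ Q \ plane a →
      x 0 < a → y 0 < a := by
    intro x y _ h hx
    by_contra hy
    push Not at hy
    have hlt : x 0 < y 0 := lt_of_lt_of_le hx hy
    let t : ℝ := (a - x 0) / (y 0 - x 0)
    have ht0 : 0 ≤ t := div_nonneg (by linarith) (by linarith)
    have ht1 : t ≤ 1 := (div_le_one (by linarith)).2 (by linarith)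
    have hz : (1 - t) • x + t • y ∈ hull [x, y] :=
      hull_convex [x, y] (mem_hull (by simp)) (mem_hull (by simp)) (by linarith) ht0 (by ring)
    have hz2 := h hz
    apply hz2.2
    refine ⟨hz2.1, ?_⟩
    have hne : y 0 - x 0 ≠ 0 := by linarith [hlt]
    simp only [Pi.add_apply, Pi.smul_apply, smul_eq_mul]
    have ht : t * (y 0 - x 0) = a - x 0 := div_mul_cancel₀ _ hne
    linarith
  constructor
  · exact key x y (by simp) h
  · refine key y x (by simp) ?_
    refine (hull_mono ?_).trans h
    intro z hz
    simp only [List.mem_cons, List.not_mem_nil, or_false] at hz ⊢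
    tauto

theorem cylW_plane (a : ℝ) (h0 : 0 < a) (h1 : a < 1) :
    ∃ c : C, CylW (plane a) (Set.Iio 1) 1 c := by
  classical
  let e : E := fun i => if i = 0 then 1 else 0
  have he0 : e 0 = 1 := if_pos rfl
  have heQ : e ∈ Q := by
    intro i
    by_cases hi : i = 0 <;> simp [e, hi]
  let c : C := sg [0] + sg [e]
  have hsupp : ∀ l ∈ c.support, l = [0] ∨ l = [e] := by
    intro l hl
    have := Finsupp.support_add hl
    rw [Finset.mem_union] at this
    rcases this with h | h
    · left
      simpa using Finsupp.support_single_subset h
    · right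
      simpa using Finsupp.support_single_subset h
  let lam : C →ₗ[ZMod 2] ZMod 2 := Finsupp.linearCombination (ZMod 2) (plSide a)
  have hlam : ∀ l, lam (sg l) = plSide a l := by
    intro l
    simp [lam]
  refine ⟨c, le_rfl, ?_, ?_, ?_, ?_, ?_⟩
  · exact Submodule.add_mem _ (sg_mem_Len.2 rfl) (sg_mem_Len.2 rfl)
  · change bd (sg [0] + sg [e]) = 0
    rw [map_add, bd_sg, bd_sg, bdl_cons, bdl_cons, bdl_nil, map_zero, map_zero, add_zero,
      add_self]
  · intro w hw hbd
    have hz : lam (bd w) = 0 := by
      have := lam_eq_zero (lam ∘ₗ bd) w (by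
        intro l hl
        rw [LinearMap.comp_apply, bd_sg]
        have hl' := mem_CU.1 hw l hl
        match l, hl' with
        | [], _ => simp
        | [x], _ =>
          rw [bdl_cons, bdl_nil, map_zero, add_zero, hlam, plSide_nil]
        | [x, y], hl' =>
          rw [bdl_cons, bdl_cons, bdl_nil, map_zero, add_zero, cone_sg, map_add, hlam, hlam,
            plSide_single, plSide_single]
          have hs := plane_same_side hl'
          by_cases hx : x 0 < a
          · rw [if_pos hx, if_pos (hs.1 hx)]
            rfl
          · rw [if_neg hx, if_neg (fun h => hx (hs.2 h))]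
            rfl
        | x :: y :: z :: t, _ =>
          apply lam_eq_zero
          intro m hm
          rw [hlam]
          apply plSide_of_length
          have := (face hm).1
          simp only [List.length_cons] at this
          omega)
      exact this
    rw [hbd] at hz
    have h2 : lam c = 1 := by
      change lam (sg [0] + sg [e]) = 1
      rw [map_add, hlam, hlam, plSide_single, plSide_single, if_pos, if_neg, add_zero]
      · rw [he0]
        linarith
      · simpa using h0
    rw [h2] at hz
    exact one_ne_zero hz
  · intro l hl v hv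
    rcases hsupp l hl with rfl | rfl
    · rw [List.mem_singleton] at hv
      subst hv
      exact ⟨zero_mem_Q, fun i _ => rfl⟩
    · rw [List.mem_singleton] at hv
      subst hv
      refine ⟨heQ, fun i hi => ?_⟩
      have : i ≠ 0 := by
        rintro rfl
        exact hi (by simp)
      simp [e, this]
  · intro l hl x hx y _ hyx hy
    have h3 := hyx 0 (by simp)
    rw [hy.2] at h3
    rcases hsupp l hl with rfl | rfl
    · rw [hull_singleton, mem_singleton_iff] at hx
      subst hx
      have : a = 0 := h3
      linarith
    · rw [hull_singleton, mem_singleton_iff] at hx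
      subst hx
      rw [he0] at h3
      linarith

end HCube
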