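import Pool.Agent.Helper44.HC.Basic

/-! Block permutations of coordinates. -/

namespace HCube

open Set Finsupp

/-- the involution of `ℕ` exchanging the blocks `[0,M)` and `[R,R+M)` (for `M ≤ R`) -/
def blk (M R : ℕ) (i : ℕ) : ℕ :=
  if i < M then i + R else if R ≤ i ∧ i < R + M then i - R else i

/-- the block permutation is an involution -/
theorem blk_blk (M R : ℕ) (h : M ≤ R) (i : ℕ) : blk M R (blk M R i) = i := by
  unfold blk
  split_ifs <;> omega

/-- the image of `K` under the coordinate permutation -/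
def sw (M R : ℕ) (K : Set E) : Set E := {x | (fun i => x (blk M R i)) ∈ K}

/-- the permutation of coordinates as a linear map -/
def swap_lin (M R : ℕ) : E →ₗ[ℝ] E where
  toFun x := fun i => x (blk M R i)
  map_add' _ _ := rfl
  map_smul' _ _ := rfl

theorem swap_invol (M R : ℕ) (h : M ≤ R) (x : E) : swap_lin M R (swap_lin M R x) = x := by
  funext i
  show x (blk M R (blk M R i)) = x i
  rw [blk_blk M R h]

theorem swap_hull (M R : ℕ) (l : List E) :
    hull (l.map (swap_lin M R)) = (swap_lin M R) '' hull l := by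
  unfold hull
  rw [LinearMap.image_convexHull]
  congr 1
  ext x
  simp [Set.mem_image]

theorem swap_Q (M R : ℕ) {x : E} (hx : x ∈ Q) : swap_lin M R x ∈ Q := fun i => hx _

theorem cylW_sw (M R : ℕ) (h : M ≤ R) (K : Set E) (q : ℕ) (c : C)
    (hc : CylW K (Set.Iio M) q c) :
    ∃ c' : C, CylW (sw M R K) (Set.Ico R (R + M)) q c' := by
  obtain ⟨h1, h2, h3, h4, h5, h6⟩ := hc
  have hcomp : (swap_lin M R : E → E) ∘ (swap_lin M R : E → E) = id := by
    funext x; exact swap_invol M R h x
  have hmm : ∀ c : C, mapc (swap_lin M R) (mapc (swap_lin M R) c) = c := by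
    intro c
    rw [mapc_mapc, hcomp]
    have : mapc id = LinearMap.id := by
      apply lin_ext
      intro l
      simp
    rw [this]; rfl
  refine ⟨mapc (swap_lin M R) c, h1, mapc_mem_Len h2, ?_, ?_, ?_, ?_⟩
  · rw [bd_mapc, h3, map_zero]
  · intro w hw hbd
    apply h4 (mapc (swap_lin M R) w)
    · rw [mem_CU] at hw ⊢
      intro l hl
      obtain ⟨m, hm, rfl⟩ := support_mapc hl
      rw [swap_hull]
      rintro _ ⟨x, hx, rfl⟩
      have hx2 := hw m hm hx
      refine ⟨swap_Q M R hx2.1, fun hk => hx2.2 ?_⟩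
      exact hk
    · rw [bd_mapc, hbd, hmm]
  · intro l hl v hv
    obtain ⟨m, hm, rfl⟩ := support_mapc hl
    rw [List.mem_map] at hv
    obtain ⟨u, hu, rfl⟩ := hv
    obtain ⟨hq, hz⟩ := h5 m hm u hu
    refine ⟨swap_Q M R hq, fun i hi => ?_⟩
    apply hz
    rw [Set.mem_Iio]
    rw [Set.mem_Ico] at hi
    unfold blk
    split_ifs <;> omega
  · intro l hl x hx y hy hxy hyK
    obtain ⟨m, hm, rfl⟩ := support_mapc hl
    rw [swap_hull] at hx
    obtain ⟨u, hu, rfl⟩ := hx
    refine h6 m hm u hu (swap_lin M R y) (swap_Q M R hy) ?_ hyK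
    intro i hi
    rw [Set.mem_Iio] at hi
    have hb : blk M R i ∈ Set.Ico R (R + M) := by
      rw [Set.mem_Ico]; unfold blk
      rw [if_pos hi]; omega
    have := hxy _ hb
    show y (blk M R i) = u i
    rw [this]
    show u (blk M R (blk M R i)) = u i
    rw [blk_blk M R h]

end HCube
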