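import Pool.Agent.Helper44.HC.MV

/-! Essential sets and finite closed covers. -/

namespace HCube

open Set Finsupp

lemma bound_of_not_ess {K : Set E} (h : ¬ Ess K) {p : ℕ} (hp : 1 ≤ p) {z : C}
    (hz : z ∈ CU (Q \ K)) (hl : z ∈ Len p) (hb : bd z = 0) :
    ∃ a ∈ CU (Q \ K), a ∈ Len (p + 1) ∧ bd a = z := by
  have h1 : ∃ w ∈ CU (Q \ K), bd w = z := by
    by_contra hcon
    apply h
    refine ⟨p, hp, z, hz, hl, hb, ?_⟩
    intro w hw hw'
    exact hcon ⟨w, hw, hw'⟩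
  obtain ⟨w, hw, hw'⟩ := h1
  refine ⟨pr (p + 1) w, pr_mem_CU hw, pr_mem_Len _ _, ?_⟩
  rw [bd_pr, hw', pr_of_mem hl]

theorem ess_union (K₁ K₂ : Set E) (h₁ : IsClosed K₁) (h₂ : IsClosed K₂) (h : Ess (K₁ ∪ K₂)) :
    Ess K₁ ∨ Ess K₂ ∨ Ess (K₁ ∩ K₂) := by
  by_contra hcon
  have hn1 : ¬ Ess K₁ := fun h => hcon (Or.inl h)
  have hn2 : ¬ Ess K₂ := fun h => hcon (Or.inr (Or.inl h))
  have hn3 : ¬ Ess (K₁ ∩ K₂) := fun h => hcon (Or.inr (Or.inr h))
  obtain ⟨p, hp, z, hz, hl, hb, hno⟩ := h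
  have hz1 : z ∈ CU (Q \ K₁) := CU_mono (V := Q \ K₁) (fun x hx => And.intro hx.1 (fun h => hx.2 (Or.inl h))) hz
  have hz2 : z ∈ CU (Q \ K₂) := CU_mono (V := Q \ K₂) (fun x hx => And.intro hx.1 (fun h => hx.2 (Or.inr h))) hz
  obtain ⟨a, ha, hal, hab⟩ := bound_of_not_ess hn1 hp hz1 hl hb
  obtain ⟨b, hb', hbl, hbb⟩ := bound_of_not_ess hn2 hp hz2 hl hb
  have hs : a + b ∈ CU (Q \ (K₁ ∩ K₂)) := by
    refine Submodule.add_mem _ ?_ ?_
    · exact CU_mono (fun x hx => And.intro hx.1 (fun h => hx.2 h.1)) ha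
    · exact CU_mono (fun x hx => And.intro hx.1 (fun h => hx.2 h.2)) hb'
  obtain ⟨W, hW, _, hW'⟩ := bound_of_not_ess hn3 (p := p + 1) (by omega) hs
    (Submodule.add_mem _ hal hbl) (by rw [map_add, hab, hbb, add_self])
  obtain ⟨V, hV, hV'⟩ := mayer_vietoris K₁ K₂ h₁ h₂ a b z W ha hb' hab hbb hW hW'
  exact hno V hV hV'

lemma not_ess_empty : ¬ Ess (∅ : Set E) := by
  rintro ⟨p, hp, z, hz, hl, hb, hno⟩
  rw [sdiff_empty] at hz hno
  refine hno (cone 0 z) (cone_mem_CU Q_convex zero_mem_Q hz) ?_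
  rw [bd_cone, hb, map_zero, add_zero]

/-- a closed essential set covered by finitely many closed sets has a closed essential subset
in one of them -/
theorem ess_cover {n : ℕ} (B : Fin n → Set E) (hB : ∀ i, IsClosed (B i)) (K : Set E)
    (hK : IsClosed K) (hKB : K ⊆ ⋃ i, B i) (h : Ess K) :
    ∃ i, ∃ L, IsClosed L ∧ L ⊆ K ∩ B i ∧ Ess L := by
  induction n generalizing K with
  | zero =>
    exfalso
    have : K = ∅ := by
      rw [Set.eq_empty_iff_forall_notMem]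
      intro x hx
      have := hKB hx
      rw [mem_iUnion] at this
      exact this.elim fun i _ => i.elim0
    rw [this] at h
    exact not_ess_empty h
  | succ n ih =>
    have hU : IsClosed (⋃ i : Fin n, B i.succ) := isClosed_iUnion_of_finite fun i => hB _
    have hsplit : K = (K ∩ B 0) ∪ (K ∩ ⋃ i : Fin n, B i.succ) := by
      ext x
      constructor
      · intro hx
        have := hKB hx
        rw [mem_iUnion] at this
        obtain ⟨i, hi⟩ := this
        refine Fin.cases ?_ ?_ i (motive := fun i => x ∈ B i → _) hi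
        · intro h0
          exact Or.inl ⟨hx, h0⟩
        · intro j hj
          exact Or.inr ⟨hx, mem_iUnion.2 ⟨j, hj⟩⟩
      · rintro (h | h)
        · exact h.1
        · exact h.1
    rw [hsplit] at h
    rcases ess_union _ _ (hK.inter (hB 0)) (hK.inter hU) h with h | h | h
    · exact ⟨0, K ∩ B 0, hK.inter (hB 0), Subset.rfl, h⟩
    · obtain ⟨i, L, hL, hLK, hE⟩ := ih (fun i => B i.succ) (fun i => hB _) _ (hK.inter hU)
        inter_subset_right h
      exact ⟨i.succ, L, hL, fun x hx => ⟨(hLK hx).1.1, (hLK hx).2⟩, hE⟩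
    · exact ⟨0, _, (hK.inter (hB 0)).inter (hK.inter hU), fun x hx => hx.1, h⟩

end HCube
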