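import Pool.Agent.Helper44.HC.Abstract
import Pool.Agent.Helper44.HC.Union
import Pool.Agent.Helper44.HC.Inv
import Pool.Agent.Helper44.HC.Cyl
import Pool.Agent.Helper44.HC.Core
import Pool.Agent.Helper44.HC.Swap
import Pool.Agent.Helper44.HC.Plane

/-! Assembly. -/

namespace HCube

open Set Finsupp

/-- the Hilbert cube -/
abbrev X := ℕ → unitInterval

/-- inclusion of the cube in `ℕ → ℝ` -/
def emb (x : X) : E := fun i => (x i : ℝ)

/-- retraction of `ℕ → ℝ` onto the cube -/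
noncomputable def ret (x : E) : X := fun i => Set.projIcc (0 : ℝ) 1 zero_le_one (x i)

lemma continuous_emb : Continuous emb := by
  unfold emb
  fun_prop

lemma continuous_ret : Continuous ret := by
  unfold ret
  refine continuous_pi fun i => ?_
  exact continuous_projIcc.comp (continuous_apply i)

lemma ret_emb (x : X) : ret (emb x) = x := by
  funext i
  simp [ret, emb, Set.projIcc_of_mem _ (x i).2]

lemma emb_mem (x : X) : emb x ∈ Q := fun i => ⟨(x i).2.1, (x i).2.2⟩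

lemma emb_ret (x : E) (hx : x ∈ Q) : emb (ret x) = x := by
  funext i
  simp only [ret, emb]
  rw [Set.projIcc_of_mem zero_le_one (show x i ∈ Set.Icc (0:ℝ) 1 from hx i)]

lemma emb_injective : Function.Injective emb := fun x y h => by
  rw [← ret_emb x, ← ret_emb y, h]

lemma isClosed_emb_image {K : Set X} (hK : IsClosed K) : IsClosed (emb '' K) :=
  (hK.isCompact.image continuous_emb).isClosed

lemma emb_image_subset (K : Set X) : emb '' K ⊆ Q := by
  rintro _ ⟨x, _, rfl⟩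
  exact emb_mem x

/-- the family of large closed sets -/
def 𝓚 : Set (Set X) := {K | IsClosed K ∧ Ess (emb '' K)}

/-- pull back a closed essential subset of the cube -/
lemma mem_𝓚_of {L : Set E} (hL : IsClosed L) (hLQ : L ⊆ Q) (he : Ess L) :
    emb ⁻¹' L ∈ 𝓚 ∧ emb '' (emb ⁻¹' L) = L := by
  have h : emb '' (emb ⁻¹' L) = L := by
    rw [Set.image_preimage_eq_iff]
    intro x hx
    exact ⟨ret x, emb_ret x (hLQ hx)⟩
  exact ⟨⟨hL.preimage continuous_emb, by rw [h]; exact he⟩, h⟩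

lemma ess_nonempty {K : Set E} (h : Ess K) : K.Nonempty := by
  by_contra hne
  rw [Set.not_nonempty_iff_eq_empty] at hne
  subst hne
  obtain ⟨p, -, z, hz, -, hz0, hw⟩ := h
  rw [Set.sdiff_empty] at hz hw
  apply hw (cone 0 z) (cone_mem_CU Q_convex zero_mem_Q hz)
  rw [bd_cone, hz0, map_zero, add_zero]

lemma ne_𝓚 (K : Set X) (hK : K ∈ 𝓚) : K.Nonempty := by
  have := ess_nonempty hK.2
  simpa using this

lemma inv_𝓚 (h : X ≃ₜ X) (K : Set X) (hK : K ∈ 𝓚) : h '' K ∈ 𝓚 := by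
  refine ⟨h.isClosedMap K hK.1, ?_⟩
  have := ess_homeo (fun x => emb (h (ret x))) (fun x => emb (h.symm (ret x)))
    (continuous_emb.comp (h.continuous.comp continuous_ret)).continuousOn
    (continuous_emb.comp (h.symm.continuous.comp continuous_ret)).continuousOn
    (fun x _ => emb_mem _) (fun x _ => emb_mem _)
    (fun x hx => by
      show emb (h.symm (ret (emb (h (ret x))))) = x
      rw [ret_emb, h.symm_apply_apply, emb_ret x hx])
    (fun x hx => by
      show emb (h (ret (emb (h.symm (ret x))))) = x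
      rw [ret_emb, h.apply_symm_apply, emb_ret x hx])
    (emb '' K) (isClosed_emb_image hK.1) (emb_image_subset K) hK.2
  convert this using 1
  ext y
  constructor
  · rintro ⟨_, ⟨x, hx, rfl⟩, rfl⟩
    exact ⟨emb x, ⟨x, hx, rfl⟩, by simp only [ret_emb]⟩
  · rintro ⟨_, ⟨x, hx, rfl⟩, rfl⟩
    exact ⟨h x, ⟨x, hx, rfl⟩, by simp only [ret_emb]⟩

/-- smallness in the first `n` coordinates -/
def small (n : ℕ) (L : Set X) : Prop :=
  ∀ x ∈ L, ∀ y ∈ L, ∀ i < n, |(x i : ℝ) - (y i : ℝ)| ≤ 1 / ((n : ℝ) + 1)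

lemma sep_small (K : ℕ → Set X) (hK : ∀ n, small n (K n)) (x y : X) (hx : ∀ n, x ∈ K n)
    (hy : ∀ n, y ∈ K n) : x = y := by
  funext i
  apply Subtype.ext
  have h : ∀ n : ℕ, i < n → |(x i : ℝ) - (y i : ℝ)| ≤ 1 / ((n : ℝ) + 1) :=
    fun n hn => hK n x (hx n) y (hy n) i hn
  have h0 : |(x i : ℝ) - (y i : ℝ)| ≤ 0 := by
    apply le_of_tendsto_of_tendsto tendsto_const_nhds
      (tendsto_one_div_add_atTop_nhds_zero_nat (𝕜 := ℝ))
    filter_upwards [Filter.eventually_gt_atTop i] with n hn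
    exact h n hn
  have := abs_nonpos_iff.1 h0
  linarith

lemma small_𝓚 (n : ℕ) (K : Set X) (hK : K ∈ 𝓚) : ∃ L ∈ 𝓚, L ⊆ K ∧ small n L := by
  classical
  let r := Fintype.card (Fin n → Fin (n + 1))
  let e : Fin r ≃ (Fin n → Fin (n + 1)) := (Fintype.equivFin _).symm
  let B : Fin r → Set E := fun j => {x | ∀ i : Fin n,
    ((e j i : ℕ) : ℝ) / ((n : ℝ) + 1) ≤ x i ∧ x i ≤ (((e j i : ℕ) : ℝ) + 1) / ((n : ℝ) + 1)}
  have hn : (0 : ℝ) < (n : ℝ) + 1 := by positivity
  have hB : ∀ j, IsClosed (B j) := by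
    intro j
    have : B j = ⋂ i : Fin n, {x : E | ((e j i : ℕ) : ℝ) / ((n : ℝ) + 1) ≤ x i ∧
        x i ≤ (((e j i : ℕ) : ℝ) + 1) / ((n : ℝ) + 1)} := by
      ext x
      simp [B]
    rw [this]
    refine isClosed_iInter fun i => ?_
    exact (isClosed_le continuous_const (continuous_apply _)).inter
      (isClosed_le (continuous_apply _) continuous_const)
  have hcov : emb '' K ⊆ ⋃ j, B j := by
    intro x hx
    have hxQ := emb_image_subset K hx
    rw [Set.mem_iUnion]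
    let g : Fin n → Fin (n + 1) := fun i =>
      ⟨min n ⌊x i * ((n : ℝ) + 1)⌋₊, by omega⟩
    refine ⟨e.symm g, ?_⟩
    intro i
    rw [Equiv.apply_symm_apply]
    have h0 := (hxQ i).1
    have h1 := (hxQ i).2
    have hnn : 0 ≤ x i * ((n : ℝ) + 1) := by positivity
    have hf1 := Nat.floor_le hnn
    have hf2 := Nat.lt_floor_add_one (x i * ((n : ℝ) + 1))
    constructor
    · rw [div_le_iff₀ hn]
      have : ((min n ⌊x i * ((n : ℝ) + 1)⌋₊ : ℕ) : ℝ) ≤ (⌊x i * ((n : ℝ) + 1)⌋₊ : ℝ) := by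
        exact_mod_cast min_le_right _ _
      exact this.trans hf1
    · rw [le_div_iff₀ hn]
      rcases le_total n ⌊x i * ((n : ℝ) + 1)⌋₊ with h | h
      · have : (g i : ℕ) = n := by simp [g, h]
        rw [this]
        nlinarith
      · have : (g i : ℕ) = ⌊x i * ((n : ℝ) + 1)⌋₊ := by simp [g, h]
        rw [this]
        exact hf2.le
  obtain ⟨j, L, hL, hLB, he⟩ := ess_cover B hB (emb '' K) (isClosed_emb_image hK.1) hcov hK.2
  have hLK : L ⊆ emb '' K := fun x hx => (hLB hx).1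
  obtain ⟨h1, h2⟩ := mem_𝓚_of hL (hLK.trans (emb_image_subset K)) he
  refine ⟨emb ⁻¹' L, h1, ?_, ?_⟩
  · intro x hx
    obtain ⟨y, hy, hxy⟩ := hLK hx
    rw [← emb_injective hxy]
    exact hy
  · intro x hx y hy i hi
    have hx' := (hLB hx).2 ⟨i, hi⟩
    have hy' := (hLB hy).2 ⟨i, hi⟩
    simp only [emb] at hx' hy'
    have hd : (((e j ⟨i, hi⟩ : ℕ) : ℝ) + 1) / ((n : ℝ) + 1) -
        ((e j ⟨i, hi⟩ : ℕ) : ℝ) / ((n : ℝ) + 1) = 1 / ((n : ℝ) + 1) := by
      field_simp
      ring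
    rw [abs_le]
    constructor <;> linarith [hx'.1, hx'.2, hy'.1, hy'.2]

/-- coordinate permutation as a homeomorphism of the cube -/
noncomputable def swX (M R : ℕ) (h : M ≤ R) : X ≃ₜ X where
  toFun x := fun i => x (blk M R i)
  invFun x := fun i => x (blk M R i)
  left_inv x := by
    funext i
    simp [blk_blk M R h]
  right_inv x := by
    funext i
    simp [blk_blk M R h]
  continuous_toFun := by fun_prop
  continuous_invFun := by fun_prop

lemma emb_swX (M R : ℕ) (h : M ≤ R) (K : Set X) : emb '' (swX M R h '' K) = sw M R (emb '' K) := by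
  ext y
  constructor
  · rintro ⟨_, ⟨x, hx, rfl⟩, rfl⟩
    show (fun i => emb (swX M R h x) (blk M R i)) ∈ emb '' K
    refine ⟨x, hx, ?_⟩
    funext i
    show (x i : ℝ) = (x (blk M R (blk M R i)) : ℝ)
    rw [blk_blk M R h]
  · rintro ⟨x, hx, hxy⟩
    refine ⟨swX M R h x, ⟨x, hx, rfl⟩, ?_⟩
    funext i
    have := congrFun hxy (blk M R i)
    simp only [blk_blk M R h] at this
    exact this

lemma inter_𝓚 (K' K : Set X) (hK' : K' ∈ 𝓚) (hK : K ∈ 𝓚) (N M p q : ℕ) (z c : C)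
    (hz : CylW (emb '' K') (Set.Iio N) p z) (hc : CylW (emb '' K) (Set.Iio M) q c)
    (R : ℕ) (hMR : M ≤ R) (hNR : N ≤ R) : K' ∩ swX M R hMR '' K ∈ 𝓚 := by
  have hcl : IsClosed (swX M R hMR '' K) := (swX M R hMR).isClosedMap K hK.1
  refine ⟨hK'.1.inter hcl, ?_⟩
  rw [Set.image_inter emb_injective, emb_swX]
  obtain ⟨c', hc'⟩ := cylW_sw M R hMR (emb '' K) q c hc
  refine ess_inter _ _ (isClosed_emb_image hK'.1) ?_ (Set.Iio N) (Set.Ico R (R + M)) ?_ p q z c'
    hz hc'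
  · rw [← emb_swX M R hMR]
    exact isClosed_emb_image hcl
  · rw [Set.disjoint_left]
    intro i hi hi'
    exact absurd (hNR.trans hi'.1) (not_le.2 hi)

lemma count_𝓚 (K : Set X) (hK : K ∈ 𝓚) :
    ∃ h : ℕ → (X ≃ₜ X), ∀ K' ∈ 𝓚, ∃ n, ∃ L ∈ 𝓚, L ⊆ K' ∧ L ⊆ h n '' K := by
  obtain ⟨M, q, c, hc⟩ := exists_cylW (emb '' K) (isClosed_emb_image hK.1) hK.2
  refine ⟨fun n => swX M (M + n) (Nat.le_add_right _ _), fun K' hK' => ?_⟩
  obtain ⟨N, p, z, hz⟩ := exists_cylW (emb '' K') (isClosed_emb_image hK'.1) hK'.2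
  exact ⟨N, _, inter_𝓚 K' K hK' hK N M p q z c hz hc (M + N) (Nat.le_add_right _ _)
    (Nat.le_add_left _ _), Set.inter_subset_left, Set.inter_subset_right⟩

/-- hyperplane in the cube -/
def planeX (a : ℝ) : Set X := {x | (x 0 : ℝ) = a}

lemma emb_planeX (a : ℝ) : emb '' planeX a = plane a := by
  ext y
  constructor
  · rintro ⟨x, hx, rfl⟩
    exact ⟨emb_mem x, hx⟩
  · rintro ⟨h1, h2⟩
    refine ⟨ret y, ?_, emb_ret y h1⟩
    show ((ret y) 0 : ℝ) = a
    have := congrFun (emb_ret y h1) 0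
    simp only [emb] at this
    rw [this, h2]

lemma ess_of_cylW {K : Set E} {I : Set ℕ} {p : ℕ} {z : C} (h : CylW K I p z) : Ess K := by
  obtain ⟨h1, h2, h3, h4, h5, h6⟩ := h
  refine ⟨p, h1, z, ?_, h2, h3, h4⟩
  rw [mem_CU]
  intro l hl x hx
  have hxQ : x ∈ Q := hull_subset Q_convex (fun v hv => (h5 l hl v hv).1) hx
  exact ⟨hxQ, h6 l hl x hx x hxQ (fun i _ => rfl)⟩

lemma planeX_mem (a : ℝ) (h0 : 0 < a) (h1 : a < 1) : planeX a ∈ 𝓚 := by
  obtain ⟨c, hc⟩ := cylW_plane a h0 h1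
  constructor
  · exact isClosed_eq (continuous_subtype_val.comp (continuous_apply 0)) continuous_const
  · rw [emb_planeX]
    exact ess_of_cylW hc

lemma two_𝓚 (K : Set X) (hK : K ∈ 𝓚) :
    ∃ L₁ ∈ 𝓚, ∃ L₂ ∈ 𝓚, L₁ ⊆ K ∧ L₂ ⊆ K ∧ Disjoint L₁ L₂ := by
  obtain ⟨N, p, z, hz⟩ := exists_cylW (emb '' K) (isClosed_emb_image hK.1) hK.2
  have key : ∀ a : ℝ, 0 < a → a < 1 →
      K ∩ swX 1 (1 + N) (Nat.le_add_right _ _) '' planeX a ∈ 𝓚 := by
    intro a h0 h1
    obtain ⟨c, hc⟩ := cylW_plane a h0 h1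
    rw [← emb_planeX] at hc
    exact inter_𝓚 K (planeX a) hK (planeX_mem a h0 h1) N 1 p 1 z c hz hc (1 + N) _
      (Nat.le_add_left _ _)
  refine ⟨_, key (1/3) (by norm_num) (by norm_num), _, key (2/3) (by norm_num) (by norm_num),
    Set.inter_subset_left, Set.inter_subset_left, ?_⟩
  rw [Set.disjoint_left]
  rintro x ⟨-, y, hy, hyx⟩ ⟨-, y', hy', hyx'⟩
  have : y = y' := (swX 1 (1 + N) (Nat.le_add_right _ _)).injective (hyx.trans hyx'.symm)
  subst this
  have h1 : (y 0 : ℝ) = 1/3 := hy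
  have h2 : (y 0 : ℝ) = 2/3 := hy'
  rw [h1] at h2
  norm_num at h2

lemma nd_𝓚 : ∃ H ∈ 𝓚, interior H = ∅ := by
  refine ⟨planeX (1/2), planeX_mem _ (by norm_num) (by norm_num), ?_⟩
  rw [interior_eq_empty_iff_dense_compl]
  intro x
  rw [mem_closure_iff_seq_limit]
  -- change the zeroth coordinate slightly
  by_cases hx : (x 0 : ℝ) = 1/2
  · refine ⟨fun n => Function.update x 0 ⟨1/2 + 1 / ((n : ℝ) + 2), ?_, ?_⟩, ?_, ?_⟩
    · positivity
    · have : (1 : ℝ) / ((n : ℝ) + 2) ≤ 1 / 2 := by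
        apply one_div_le_one_div_of_le (by norm_num)
        have : (0 : ℝ) ≤ n := Nat.cast_nonneg n
        linarith
      linarith
    · intro n
      simp only [planeX, Set.mem_compl_iff, Set.mem_ofPred_eq, Function.update_self]
      have : (0 : ℝ) < 1 / ((n : ℝ) + 2) := by positivity
      intro h
      linarith
    · rw [tendsto_pi_nhds]
      intro i
      by_cases hi : i = 0
      · subst hi
        simp only [Function.update_self]
        rw [tendsto_subtype_rng]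
        simp only [hx]
        have h2 : Filter.Tendsto (fun n : ℕ => (1 : ℝ) / ((n : ℝ) + 2)) Filter.atTop (nhds 0) := by
          have := (tendsto_one_div_add_atTop_nhds_zero_nat (𝕜 := ℝ)).comp
            (Filter.tendsto_add_atTop_nat 1)
          refine this.congr fun n => ?_
          simp only [Function.comp_apply]
          push_cast
          ring_nf
        have := h2.const_add (1/2 : ℝ)
        simpa using this
      · simp only [ne_eq, hi, not_false_eq_true, Function.update_of_ne]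
        exact tendsto_const_nhds
  · exact ⟨fun _ => x, fun _ => hx, tendsto_const_nhds⟩

/-- **There is a maximal non-trivial topologically invariant sigma-ideal with Borel base on the
Hilbert cube which is different from the ideal of meager sets.** -/
theorem final : ∃ I : Set (Set X), IsMaximalInvariant I ∧ I ≠ {A | IsMeagre A} ∧
    ∃ A ∈ I, IsMeagre Aᶜ := by
  obtain ⟨I, hI, A, hA, hAm⟩ := abstract_max 𝓚 small (fun K hK => hK.1) ne_𝓚 inv_𝓚 small_𝓚
    sep_small count_𝓚 two_𝓚 nd_𝓚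
  refine ⟨I, hI, ?_, A, hA, hAm⟩
  rintro rfl
  apply hI.2.2.2.1.1
  have h1 : IsMeagre A := hA
  have : IsMeagre (A ∪ Aᶜ) := h1.union hAm
  rwa [Set.union_compl_self] at this

end HCube
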