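import Pool.Agent.Helper44.HC.Basic

/-! Barycentric subdivision. -/

namespace HCube

open Set Finsupp

/-- barycentre of a list of points -/
noncomputable def sdBar (l : List E) : E := ((l.length : ℝ)⁻¹) • l.sum

/-- recursive barycentric subdivision -/
noncomputable def sdn : ℕ → List E → C
  | 0, _ => sg []
  | n + 1, l => cone (sdBar l) (ext (sdn n) (bdl l))

noncomputable def sdd (l : List E) : C := sdn l.length l

lemma sdd_nil : sdd [] = sg [] := rfl

lemma sdd_succ {n : ℕ} {l : List E} (h : l.length = n + 1) :
    sdd l = cone (sdBar l) (ext sdd (bdl l)) := by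
  rw [sdd, h, sdn]
  congr 1
  apply map_eq_of_support
  intro m hm
  have h1 := (face hm).1
  rw [ext_sg, ext_sg, sdd]
  congr 1
  omega

lemma bd_sdd (n : ℕ) : ∀ l : List E, l.length = n → bd (sdd l) = ext sdd (bdl l) := by
  induction n with
  | zero =>
    intro l hl
    have : l = [] := List.eq_nil_of_length_eq_zero hl
    subst this
    simp [sdd_nil]
  | succ n ih =>
    intro l hl
    rw [sdd_succ hl, bd_cone]
    have h2 : bd (ext sdd (bdl l)) = ext sdd (bd (bdl l)) := by
      have := map_eq_of_support (bd ∘ₗ ext sdd) (ext sdd ∘ₗ bd) (bdl l) (by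
        intro m hm
        have h1 := (face hm).1
        simp only [LinearMap.coe_comp, Function.comp_apply, ext_sg, bd_sg]
        exact ih m (by omega))
      exact this
    have h3 : bd (bdl l) = 0 := by
      have := bd_bd (sg l)
      rwa [bd_sg] at this
    rw [h2, h3, map_zero, map_zero, add_zero]

lemma sdBar_mem_hull {l : List E} (h : l ≠ []) : sdBar l ∈ hull l := by
  have key : ∀ (m : List E) (S : Set E), Convex ℝ S → (∀ x ∈ m, x ∈ S) → m ≠ [] →
      ((m.length : ℝ)⁻¹) • m.sum ∈ S := by
    intro m S hS
    induction m with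
    | nil => intro _ h; exact absurd rfl h
    | cons x m ih =>
      intro hm _
      by_cases hm0 : m = []
      · subst hm0
        simpa using hm x (by simp)
      · have h1 := ih (fun y hy => hm y (List.mem_cons_of_mem _ hy)) hm0
        have hx := hm x (by simp)
        have hpos : 0 < (m.length : ℝ) := by
          exact_mod_cast List.length_pos_iff.2 hm0
        have h2 := hS hx h1 (a := ((m.length : ℝ) + 1)⁻¹)
          (b := (m.length : ℝ) * ((m.length : ℝ) + 1)⁻¹) (by positivity) (by positivity)
          (by field_simp; ring)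
        have h3 : ((x :: m).length : ℝ)⁻¹ • (x :: m).sum =
            ((m.length : ℝ) + 1)⁻¹ • x +
            ((m.length : ℝ) * ((m.length : ℝ) + 1)⁻¹) • ((m.length : ℝ)⁻¹ • m.sum) := by
          rw [List.length_cons, List.sum_cons, smul_smul, smul_add]
          push_cast
          congr 2
          field_simp
        rw [h3]
        exact h2
  exact key l _ (hull_convex l) (fun x hx => mem_hull hx) h

lemma sdd_mem_CU (n : ℕ) : ∀ l : List E, l.length = n → sdd l ∈ CU (hull l) := by
  induction n with
  | zero =>
    intro l hl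
    have : l = [] := List.eq_nil_of_length_eq_zero hl
    subst this
    rw [sdd_nil, sg_mem_CU]
  | succ n ih =>
    intro l hl
    rw [sdd_succ hl]
    have hne : l ≠ [] := by
      rintro rfl
      simp at hl
    apply cone_mem_CU (hull_convex l) (sdBar_mem_hull hne)
    apply ext_mem
    intro m hm
    exact CU_mono (hull_face hm) (ih m (by have := (face hm).1; omega))

lemma sdd_mem_Len (n : ℕ) : ∀ l : List E, l.length = n → sdd l ∈ Len n := by
  induction n with
  | zero =>
    intro l hl
    have : l = [] := List.eq_nil_of_length_eq_zero hl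
    subst this
    rw [sdd_nil, sg_mem_Len]
    rfl
  | succ n ih =>
    intro l hl
    rw [sdd_succ hl]
    apply cone_mem_Len
    apply ext_mem
    intro m hm
    exact ih m (by have := (face hm).1; omega)

lemma sd_ext_support {F : List E → C} {c : C} {m : List E} (h : m ∈ (ext F c).support) :
    ∃ l ∈ c.support, m ∈ (F l).support := by
  by_contra hcon
  push Not at hcon
  have : ext F c ∈ Finsupp.supported (ZMod 2) (ZMod 2) {x : List E | x ≠ m} := by
    apply ext_mem
    intro l hl
    rw [Finsupp.mem_supported]
    intro x hx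
    simp only [Set.mem_ofPred_eq]
    rintro rfl
    exact hcon l hl hx
  rw [Finsupp.mem_supported] at this
  exact (this h) rfl

/-- distance of the barycentre to a vertex -/
lemma sdBar_vertex {l : List E} {i : ℕ} {D : ℝ}
    (hD : ∀ v ∈ l, ∀ w ∈ l, |v i - w i| ≤ D) {v : E} (hv : v ∈ l) :
    |sdBar l i - v i| ≤ (1 - 1 / (l.length : ℝ)) * D := by
  have hsum : ∀ m : List E, (∀ w ∈ m, |w i - v i| ≤ D) →
      |m.sum i - (m.length : ℝ) * v i| ≤ (m.length : ℝ) * D := by
    intro m
    induction m with
    | nil => intro _; simp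
    | cons x m ih =>
      intro hm
      have h1 := ih (fun w hw => hm w (List.mem_cons_of_mem _ hw))
      have h2 := hm x (by simp)
      rw [List.sum_cons, List.length_cons]
      simp only [Pi.add_apply]
      push_cast
      have h3 : x i + m.sum i - ((m.length : ℝ) + 1) * v i =
          (x i - v i) + (m.sum i - (m.length : ℝ) * v i) := by ring
      rw [h3]
      calc _ ≤ |x i - v i| + |m.sum i - (m.length : ℝ) * v i| := abs_add_le _ _
        _ ≤ _ := by linarith
  classical
  -- split off `v`
  have hperm := List.perm_cons_erase hv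
  have hlen : l.length = (l.erase v).length + 1 := by
    have := hperm.length_eq
    simpa using this
  have hs : l.sum = v + (l.erase v).sum := by
    have := hperm.sum_eq
    simpa using this
  have h1 := hsum (l.erase v) (fun w hw => hD w (List.mem_of_mem_erase hw) v hv)
  have hpos : 0 < (l.length : ℝ) := by
    rw [hlen]; push_cast; positivity
  have h2 : sdBar l i - v i = (l.length : ℝ)⁻¹ *
      ((l.erase v).sum i - ((l.erase v).length : ℝ) * v i) := by
    rw [sdBar, hs]
    simp only [Pi.smul_apply, Pi.add_apply, smul_eq_mul]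
    have : ((l.erase v).length : ℝ) = (l.length : ℝ) - 1 := by
      rw [hlen]; push_cast; ring
    rw [this]
    field_simp
    ring
  rw [h2, abs_mul, abs_of_pos (inv_pos.2 hpos)]
  have h3 : (1 - 1 / (l.length : ℝ)) * D = (l.length : ℝ)⁻¹ * (((l.erase v).length : ℝ) * D) := by
    have : ((l.erase v).length : ℝ) = (l.length : ℝ) - 1 := by
      rw [hlen]; push_cast; ring
    rw [this]
    field_simp
  rw [h3]
  exact mul_le_mul_of_nonneg_left h1 (inv_pos.2 hpos).le

lemma sdBar_hull {l : List E} {i : ℕ} {D : ℝ}
    (hD : ∀ v ∈ l, ∀ w ∈ l, |v i - w i| ≤ D) {v : E} (hv : v ∈ hull l) :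
    |sdBar l i - v i| ≤ (1 - 1 / (l.length : ℝ)) * D := by
  have hconv : Convex ℝ {x : E | |sdBar l i - x i| ≤ (1 - 1 / (l.length : ℝ)) * D} := by
    intro x hx y hy a b ha hb hab
    simp only [Set.mem_ofPred_eq, Pi.add_apply, Pi.smul_apply, smul_eq_mul] at *
    have h1 : sdBar l i - (a * x i + b * y i) = a * (sdBar l i - x i) + b * (sdBar l i - y i) := by
      linear_combination (-sdBar l i) * hab
    rw [h1]
    calc |a * (sdBar l i - x i) + b * (sdBar l i - y i)|
        ≤ |a * (sdBar l i - x i)| + |b * (sdBar l i - y i)| := abs_add_le _ _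
      _ = a * |sdBar l i - x i| + b * |sdBar l i - y i| := by
          rw [abs_mul, abs_mul, abs_of_nonneg ha, abs_of_nonneg hb]
      _ ≤ a * ((1 - 1 / (l.length : ℝ)) * D) + b * ((1 - 1 / (l.length : ℝ)) * D) := by
          gcongr
      _ = _ := by rw [← add_mul, hab, one_mul]
  exact hull_subset hconv (fun x hx => sdBar_vertex hD hx) hv

lemma sdd_mesh (n : ℕ) : ∀ l : List E, l.length = n → l ≠ [] → ∀ (i : ℕ) (D : ℝ),
    (∀ v ∈ l, ∀ w ∈ l, |v i - w i| ≤ D) →
      ∀ m ∈ (sdd l).support, ∀ v ∈ m, ∀ w ∈ m, |v i - w i| ≤ (1 - 1 / (l.length : ℝ)) * D := by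
  induction n with
  | zero =>
    intro l hl hne
    exact absurd (List.eq_nil_of_length_eq_zero hl) hne
  | succ n ih =>
    intro l hl hne i D hD m hm v hv w hw
    have hD0 : 0 ≤ D := by
      obtain ⟨x, hx⟩ := List.exists_mem_of_ne_nil l hne
      exact (abs_nonneg _).trans (hD x hx x hx)
    rw [sdd_succ hl] at hm
    obtain ⟨m', hm', rfl⟩ := support_cone hm
    obtain ⟨f, hf, hmf⟩ := sd_ext_support hm'
    have hfl := (face hf).1
    have hpos : 0 < (l.length : ℝ) := by
      rw [hl]; push_cast; positivity
    have hbound0 : 0 ≤ (1 - 1 / (l.length : ℝ)) * D := by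
      apply mul_nonneg _ hD0
      rw [sub_nonneg, div_le_one hpos, hl]
      push_cast
      linarith [Nat.cast_nonneg (α := ℝ) n]
    -- all vertices of `m'` lie in `hull l`
    have hm'hull : ∀ x ∈ m', x ∈ hull l := by
      intro x hx
      have h1 := mem_CU.1 (sdd_mem_CU n f (by omega)) m' hmf
      exact hull_face hf (h1 (mem_hull hx))
    rw [List.mem_cons] at hv hw
    rcases hv with rfl | hv <;> rcases hw with rfl | hw
    · simpa using hbound0
    · exact sdBar_hull hD (hm'hull w hw)
    · rw [abs_sub_comm]
      exact sdBar_hull hD (hm'hull v hv)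
    · by_cases hf0 : f = []
      · subst hf0
        rw [sdd_nil] at hmf
        have : m' = [] := by
          have := Finsupp.support_single_subset hmf
          simpa using this
        subst this
        simp at hv
      · have h1 := ih f (by omega) hf0 i D
          (fun a ha b hb => hD a ((face hf).2 a ha) b ((face hf).2 b hb)) m' hmf v hv w hw
        refine h1.trans ?_
        apply mul_le_mul_of_nonneg_right _ hD0
        have hfpos : 0 < (f.length : ℝ) := by
          exact_mod_cast List.length_pos_iff.2 hf0
        have : (1 : ℝ) / l.length ≤ 1 / f.length := by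
          apply one_div_le_one_div_of_le hfpos
          have : f.length ≤ l.length := by omega
          exact_mod_cast this
        linarith

theorem exists_sd : ∃ sd : List E → C, sd [] = sg [] ∧
    (∀ l, bd (sd l) = ext sd (bdl l)) ∧ (∀ l, sd l ∈ CU (hull l)) ∧
    (∀ l, sd l ∈ Len l.length) ∧
    (∀ l : List E, l ≠ [] → ∀ (i : ℕ) (D : ℝ), (∀ v ∈ l, ∀ w ∈ l, |v i - w i| ≤ D) →
      ∀ m ∈ (sd l).support, ∀ v ∈ m, ∀ w ∈ m, |v i - w i| ≤ (1 - 1 / (l.length : ℝ)) * D) := by
  exact ⟨sdd, sdd_nil, fun l => bd_sdd l.length l rfl, fun l => sdd_mem_CU l.length l rfl,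
    fun l => sdd_mem_Len l.length l rfl, fun l => sdd_mesh l.length l rfl⟩

end HCube
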