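import Pool.Agent.Helper44.HC.Carrier
import Pool.Agent.Helper44.HC.Sd

/-! Small simplices. -/

namespace HCube

open Set Finsupp

lemma ext_sg_self (c : C) : ext sg c = c := by
  have : ext sg = LinearMap.id := by
    apply lin_ext
    intro l
    rw [ext_sg]
    rfl
  rw [this]
  rfl

/-- chains all of whose simplices have spread at most `D` in the coordinate `i` -/
noncomputable def Spr (i : ℕ) (D : ℝ) : Submodule (ZMod 2) C :=
  Finsupp.supported (ZMod 2) (ZMod 2) {m | ∀ v ∈ m, ∀ w ∈ m, |v i - w i| ≤ D}

lemma mem_Spr {i : ℕ} {D : ℝ} {c : C} :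
    c ∈ Spr i D ↔ ∀ m ∈ c.support, ∀ v ∈ m, ∀ w ∈ m, |v i - w i| ≤ D := by
  simp only [Spr, Finsupp.mem_supported]
  constructor
  · intro h l hl
    exact h hl
  · intro h l hl
    exact h l hl

lemma spread_bound (l : List E) (i : ℕ) :
    ∃ D : ℝ, ∀ v ∈ l, ∀ w ∈ l, |v i - w i| ≤ D := by
  refine ⟨2 * (l.map (fun v => |v i|)).sum, ?_⟩
  have h : ∀ v ∈ l, |v i| ≤ (l.map (fun v => |v i|)).sum := by
    intro v hv
    apply List.single_le_sum
    · intro x hx
      rw [List.mem_map] at hx
      obtain ⟨y, _, rfl⟩ := hx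
      exact abs_nonneg _
    · exact List.mem_map.2 ⟨v, hv, rfl⟩
  intro v hv w hw
  have h1 := h v hv
  have h2 := h w hw
  have h3 : |v i - w i| ≤ |v i| + |w i| := abs_sub _ _
  linarith

theorem exists_fine {ι : Type} (F : Finset (List E)) (O : ι → Set E) (hO : ∀ j, IsOpen (O j))
    (hF : ∀ l ∈ F, hull l ⊆ ⋃ j, O j) :
    ∃ S T : C →ₗ[ZMod 2] C, (∀ c, bd (S c) = S (bd c)) ∧
      (∀ c, bd (T c) + T (bd c) = c + S c) ∧
      (∀ (U : Set E) (c : C), c ∈ CU U → S c ∈ CU U) ∧
      (∀ (U : Set E) (c : C), c ∈ CU U → T c ∈ CU U) ∧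
      (∀ (n : ℕ) (c : C), c ∈ Len n → S c ∈ Len n) ∧
      (∀ l ∈ F, l ≠ [] → ∀ m ∈ (S (sg l)).support, ∃ j, hull m ⊆ O j) := by
  classical
  obtain ⟨sd, hsd0, hsdbd, hsdCU, hsdLen, hsdSpr⟩ := exists_sd
  let s : C →ₗ[ZMod 2] C := ext sd
  have hs_sg : ∀ l, s (sg l) = sd l := fun l => ext_sg sd l
  have hs_bd : ∀ c, bd (s c) = s (bd c) := by
    intro c
    have : bd ∘ₗ s = s ∘ₗ bd := by
      apply lin_ext
      intro l
      simp only [LinearMap.coe_comp, Function.comp_apply, bd_sg, hs_sg]
      exact hsdbd l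
    exact congrArg (fun f => f c) this
  have hs_CU : ∀ (U : Set E) (c : C), c ∈ CU U → s c ∈ CU U := by
    intro U c hc
    apply ext_mem
    intro l hl
    exact CU_mono (mem_CU.1 hc l hl) (hsdCU l)
  have hs_Len : ∀ (n : ℕ) (c : C), c ∈ Len n → s c ∈ Len n := by
    intro n c hc
    apply ext_mem
    intro l hl
    have := hsdLen l
    rwa [mem_Len.1 hc l hl] at this
  -- iterates
  let P : ℕ → (C →ₗ[ZMod 2] C) := fun n => Nat.rec LinearMap.id (fun _ f => s ∘ₗ f) n
  have hP0 : ∀ c, P 0 c = c := fun c => rfl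
  have hP1 : ∀ n c, P (n + 1) c = s (P n c) := fun n c => rfl
  have hP_bd : ∀ n c, bd (P n c) = P n (bd c) := by
    intro n
    induction n with
    | zero => intro c; rfl
    | succ n ih =>
      intro c
      rw [hP1, hP1, hs_bd, ih]
  have hP_CU : ∀ n (U : Set E) (c : C), c ∈ CU U → P n c ∈ CU U := by
    intro n
    induction n with
    | zero => intro U c hc; exact hc
    | succ n ih =>
      intro U c hc
      rw [hP1]
      exact hs_CU U _ (ih U c hc)
  have hP_Len : ∀ n (k : ℕ) (c : C), c ∈ Len k → P n c ∈ Len k := by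
    intro n
    induction n with
    | zero => intro U c hc; exact hc
    | succ n ih =>
      intro U c hc
      rw [hP1]
      exact hs_Len U _ (ih U c hc)
  have hP_nil : ∀ n, P n (sg []) = sg [] := by
    intro n
    induction n with
    | zero => rfl
    | succ n ih =>
      rw [hP1, ih, hs_sg, hsd0]
  have hP_Spr : ∀ (l : List E), l ≠ [] → ∀ (i : ℕ) (D : ℝ),
      (∀ v ∈ l, ∀ w ∈ l, |v i - w i| ≤ D) → ∀ n,
      P n (sg l) ∈ Spr i ((1 - 1 / (l.length : ℝ)) ^ n * D) := by
    intro l hl i D hD n
    induction n with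
    | zero =>
      rw [hP0, mem_Spr]
      intro m hm
      have : m = l := by
        have := Finsupp.support_single_subset hm
        simpa using this
      subst this
      simpa using hD
    | succ n ih =>
      rw [hP1]
      apply ext_mem
      intro m hm
      have hlen : m.length = l.length :=
        mem_Len.1 (hP_Len n l.length (sg l) (sg_mem_Len.2 rfl)) m hm
      have hm0 : m ≠ [] := by
        intro h
        subst h
        apply hl
        apply List.eq_nil_of_length_eq_zero
        rw [← hlen]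
        rfl
      rw [mem_Spr]
      intro m' hm' v hv w hw
      have h1 := hsdSpr m hm0 i _ (mem_Spr.1 ih m hm) m' hm' v hv w hw
      rw [hlen] at h1
      rw [pow_succ']
      calc |v i - w i| ≤ (1 - 1 / (l.length : ℝ)) * ((1 - 1 / (l.length : ℝ)) ^ n * D) := h1
        _ = (1 - 1 / (l.length : ℝ)) * (1 - 1 / (l.length : ℝ)) ^ n * D := by ring
  -- fineness of high iterates
  have key : ∀ l ∈ F, l ≠ [] → ∀ᶠ n in Filter.atTop,
      ∀ m ∈ (P n (sg l)).support, ∃ j, hull m ⊆ O j := by
    intro l hlF hl
    have hcomp : IsCompact (hull l) :=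
      (List.finite_toSet l).isCompact_convexHull ℝ
    obtain ⟨V, hV, hVb⟩ := lebesgue_number_lemma hcomp hO (hF l hlF)
    rw [Pi.uniformity] at hV
    have hb := (Filter.HasBasis.iInf' (fun i : ℕ =>
      (Metric.uniformity_basis_dist (α := ℝ)).comap
        (fun a : (ℕ → ℝ) × (ℕ → ℝ) => (a.1 i, a.2 i)))).mem_iff.1 hV
    obtain ⟨⟨I, ε⟩, ⟨hI, hε⟩, hIV⟩ := hb
    simp only at hI hε hIV
    choose D hD using fun i => spread_bound l i
    have hr0 : (0 : ℝ) ≤ 1 - 1 / (l.length : ℝ) := by
      have h1 : 1 ≤ l.length := by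
        rcases Nat.eq_zero_or_pos l.length with h | h
        · exact absurd (List.eq_nil_of_length_eq_zero h) hl
        · exact h
      have h2 : (1 : ℝ) ≤ (l.length : ℝ) := by exact_mod_cast h1
      have h3 : 1 / (l.length : ℝ) ≤ 1 := by
        rw [div_le_one (by linarith)]
        exact h2
      linarith
    have hr1 : 1 - 1 / (l.length : ℝ) < 1 := by
      have h1 : 1 ≤ l.length := by
        rcases Nat.eq_zero_or_pos l.length with h | h
        · exact absurd (List.eq_nil_of_length_eq_zero h) hl
        · exact h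
      have h2 : (1 : ℝ) ≤ (l.length : ℝ) := by exact_mod_cast h1
      have h3 : 0 < 1 / (l.length : ℝ) := by positivity
      linarith
    have hev : ∀ᶠ n in Filter.atTop, ∀ i ∈ I,
        (1 - 1 / (l.length : ℝ)) ^ n * D i < ε i := by
      rw [Filter.eventually_all_finite hI]
      intro i hi
      have ht : Filter.Tendsto (fun n : ℕ => (1 - 1 / (l.length : ℝ)) ^ n * D i) Filter.atTop
          (nhds (0 * D i)) :=
        (tendsto_pow_atTop_nhds_zero_of_lt_one hr0 hr1).mul_const _
      rw [zero_mul] at ht
      exact ht.eventually (gt_mem_nhds (hε i hi))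
    filter_upwards [hev] with n hn
    intro m hm
    have hlen : m.length = l.length :=
      mem_Len.1 (hP_Len n l.length (sg l) (sg_mem_Len.2 rfl)) m hm
    obtain ⟨v, hv⟩ : ∃ v, v ∈ m := by
      apply List.exists_mem_of_ne_nil
      intro h
      subst h
      apply hl
      apply List.eq_nil_of_length_eq_zero
      rw [← hlen]
      rfl
    have hvl : v ∈ hull l :=
      mem_CU.1 (hP_CU n (hull l) (sg l) (sg_mem_CU.2 subset_rfl)) m hm (mem_hull hv)
    obtain ⟨j, hj⟩ := hVb v hvl
    refine ⟨j, ?_⟩
    refine Set.Subset.trans ?_ hj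
    have hconv : Convex ℝ {y : E | ∀ i ∈ I, |v i - y i| < ε i} := by
      intro x hx y hy a b ha hb hab i hi
      have h1 := hx i hi
      have h2 := hy i hi
      rw [abs_lt] at h1 h2
      simp only [Pi.add_apply, Pi.smul_apply, smul_eq_mul]
      have h3 : v i - (a * x i + b * y i) = a * (v i - x i) + b * (v i - y i) := by
        have : v i = (a + b) * v i := by rw [hab, one_mul]
        calc v i - (a * x i + b * y i) = (a + b) * v i - (a * x i + b * y i) := by rw [← this]
          _ = _ := by ring
      rw [h3]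
      calc |a * (v i - x i) + b * (v i - y i)|
          ≤ |a * (v i - x i)| + |b * (v i - y i)| := abs_add_le _ _
        _ = a * |v i - x i| + b * |v i - y i| := by
            rw [abs_mul, abs_mul, abs_of_nonneg ha, abs_of_nonneg hb]
        _ < ε i := by
            have h4 : |v i - x i| < ε i := hx i hi
            have h5 : |v i - y i| < ε i := hy i hi
            rcases eq_or_lt_of_le ha with h | h
            · rw [← h] at hab ⊢
              rw [zero_add] at hab
              rw [hab]
              linarith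
            · have h6 : a * |v i - x i| < a * ε i := mul_lt_mul_of_pos_left h4 h
              have h7 : b * |v i - y i| ≤ b * ε i := mul_le_mul_of_nonneg_left h5.le hb
              have h8 : ε i = a * ε i + b * ε i := by
                rw [← add_mul, hab, one_mul]
              rw [h8]
              linarith
    refine (hull_subset hconv ?_).trans ?_
    · intro w hw i hi
      have h1 := mem_Spr.1 (hP_Spr l hl i (D i) (hD i) n) m hm v hv w hw
      exact lt_of_le_of_lt h1 (hn i hi)
    · intro y hy
      apply hIV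
      simp only [Set.mem_iInter, Set.mem_preimage, Set.mem_ofPred_eq]
      intro i hi
      rw [Real.dist_eq]
      exact hy i hi
  have hn : ∃ n, ∀ l ∈ F, l ≠ [] → ∀ m ∈ (P n (sg l)).support, ∃ j, hull m ⊆ O j := by
    have : ∀ᶠ n in Filter.atTop, ∀ l ∈ F, l ≠ [] →
        ∀ m ∈ (P n (sg l)).support, ∃ j, hull m ⊆ O j := by
      rw [Filter.eventually_all_finset]
      intro l hl
      by_cases h : l = []
      · exact Filter.Eventually.of_forall fun n hne => absurd h hne
      · filter_upwards [key l hl h] with n hn _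
        exact hn
    exact this.exists
  obtain ⟨n, hn⟩ := hn
  have hext : ∀ c, ext (fun l => P n (sg l)) c = P n c := by
    intro c
    have : ext (fun l => P n (sg l)) = P n := by
      apply lin_ext
      intro l
      rw [ext_sg]
    rw [this]
  obtain ⟨D, hD1, hD2, hD3⟩ := carrier Set.univ (fun _ _ _ _ => Set.mem_univ _) sg
    (fun l => P n (sg l)) hull (fun l => l.headD 0) rfl (hP_nil n)
    (fun l _ => by rw [bd_sg, ext_sg_self])
    (fun l _ => by rw [hext, hP_bd, bd_sg])
    (fun l _ _ => hull_convex l)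
    (fun l _ hl => by
      cases l with
      | nil => exact absurd rfl hl
      | cons x l => exact mem_hull (by simp))
    (fun l _ m hm _ => hull_face hm)
    (fun l _ _ => sg_mem_CU.2 subset_rfl)
    (fun l _ _ => hP_CU n _ _ (sg_mem_CU.2 subset_rfl))
  refine ⟨P n, D, hP_bd n, ?_, hP_CU n, ?_, hP_Len n, hn⟩
  · intro c
    rw [hD1 c (fun _ _ => Set.mem_univ _), ext_sg_self, hext]
  · intro U c hc
    apply map_mem_of_support
    intro l hl
    by_cases h : l = []
    · subst h
      rw [hD3]
      exact Submodule.zero_mem _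
    · exact CU_mono (mem_CU.1 hc l hl) (hD2 l (Set.mem_univ _) h)

end HCube
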